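import Mathlib

set_option autoImplicit false

/-!
Exponential polynomials, their quotients, and the field generated by the values of such quotients.
-/

namespace Pool.Agent.K9h26.GE

open Complex

/-- exponential polynomials -/
def XP (f : ℂ → ℂ) : Prop :=
  ∃ (W : Finset ℂ) (p : ℂ → Polynomial ℂ), ∀ t, f t = ∑ ω ∈ W, (p ω).eval t * exp (ω * t)

/-- entire functions `f` such that `q f` is an exponential polynomial for some polynomial `q ≠ 0` -/
def QP (f : ℂ → ℂ) : Prop :=
  Differentiable ℂ f ∧ ∃ q : Polynomial ℂ, q ≠ 0 ∧ XP (fun t => q.eval t * f t)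

/-- quotients of exponential polynomials -/
def EQ (f : ℂ → ℂ) : Prop :=
  ∃ P Q : ℂ → ℂ, XP P ∧ XP Q ∧ (∃ t, Q t ≠ 0) ∧ ∀ t, Q t ≠ 0 → f t = P t / Q t

/-- the field generated over `F` by the values at `t` of the quotients of exponential polynomials
in a family -/
noncomputable def eqField (F : Type) [Field F] [Algebra F ℂ] (𝓜 : Set (ℂ → ℂ)) (t : ℂ) :
    IntermediateField F ℂ :=
  IntermediateField.adjoin F {x | ∃ g ∈ 𝓜, EQ g ∧ x = g t}

end Pool.Agent.K9h26.GE
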