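import Pool.Agent.W175.GF.Basic
import Pool.Agent.W175.GF.Stm

set_option autoImplicit false

/-!
The logarithmic covering of the punctured disc: functions on right half planes, slow functions and
exponential polynomials in `exp w`.
-/

namespace Pool.Agent.K9h26.GE

open Complex
open Pool.Agent.W175.GF (SE ES SE.add SE.mul SE.of_bdd mul_eq_zero_on)

/-- the right half plane `r < Re w` -/
def U (r : ℝ) : Set ℂ := {w | r < w.re}

/-- its part in a horizontal strip -/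
def Us (r T : ℝ) : Set ℂ := {w | r < w.re ∧ |w.im| ≤ T}

/-- holomorphic functions on the half plane which grow in horizontal strips more slowly than
`exp (ε exp (Re w))` for every `ε > 0` -/
def Slow (r : ℝ) (f : ℂ → ℂ) : Prop :=
  DifferentiableOn ℂ f (U r) ∧ ∀ T : ℝ, SE (Us r T) (fun w => Real.exp w.re) f

/-- exponential polynomials in `exp w` with slow coefficients -/
def EP (r : ℝ) (f : ℂ → ℂ) : Prop :=
  ∃ (W : Finset ℂ) (R : ℂ → ℂ → ℂ), (∀ ω ∈ W, Slow r (R ω)) ∧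
    ∀ s ∈ U r, f s = ∑ ω ∈ W, R ω s * exp (ω * exp s)

lemma Us_sub (r T : ℝ) : Us r T ⊆ U r := fun _ h => h.1

lemma U_open (r : ℝ) : IsOpen (U r) := by
  unfold U
  exact isOpen_lt continuous_const continuous_re

lemma U_mono {r r' : ℝ} (h : r ≤ r') : U r' ⊆ U r := fun _ hs => lt_of_le_of_lt h hs

lemma U_preconnected (r : ℝ) : IsPreconnected (U r) := (convex_halfSpace_re_gt r).isPreconnected

lemma U_nonempty (r : ℝ) : (U r).Nonempty := by
  refine ⟨((r + 1 : ℝ) : ℂ), ?_⟩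
  show r < ((r + 1 : ℝ) : ℂ).re
  rw [ofReal_re]
  linarith

/-- identity theorem on the half plane from a nonempty open subset -/
lemma eq_zero_of_open {r : ℝ} {f : ℂ → ℂ} (hf : DifferentiableOn ℂ f (U r)) {V : Set ℂ}
    (hV : IsOpen V) {s₀ : ℂ} (hs₀ : s₀ ∈ V) (hs₁ : s₀ ∈ U r) (h : ∀ s ∈ V, f s = 0) :
    ∀ s ∈ U r, f s = 0 := by
  have ha : AnalyticOnNhd ℂ f (U r) := hf.analyticOnNhd (U_open r)
  have hev : f =ᶠ[nhds s₀] 0 := by
    filter_upwards [hV.mem_nhds hs₀] with s hs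
    exact h s hs
  have := ha.eqOn_zero_of_preconnected_of_eventuallyEq_zero (U_preconnected r) hs₁ hev
  exact fun s hs => this hs

lemma mul_zero_U {r : ℝ} {f g : ℂ → ℂ} (hf : DifferentiableOn ℂ f (U r))
    (hg : DifferentiableOn ℂ g (U r)) (h : ∀ s ∈ U r, f s * g s = 0) :
    (∀ s ∈ U r, f s = 0) ∨ ∀ s ∈ U r, g s = 0 :=
  mul_eq_zero_on (U_open r) (U_preconnected r) hf hg h

/-! ### slow functions -/

lemma Slow.add {r : ℝ} {f g : ℂ → ℂ} (hf : Slow r f) (hg : Slow r g) :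
    Slow r (fun s => f s + g s) :=
  ⟨hf.1.add hg.1, fun T => SE.add (hf.2 T) (hg.2 T)⟩

lemma Slow.mul {r : ℝ} {f g : ℂ → ℂ} (hf : Slow r f) (hg : Slow r g) :
    Slow r (fun s => f s * g s) :=
  ⟨hf.1.mul hg.1, fun T => SE.mul (hf.2 T) (hg.2 T)⟩

lemma Slow.of_bdd {r : ℝ} {f : ℂ → ℂ} (hf : DifferentiableOn ℂ f (U r))
    (h : ∀ T : ℝ, ∃ C : ℝ, ∀ s ∈ Us r T, ‖f s‖ ≤ C) : Slow r f := by
  refine ⟨hf, fun T => ?_⟩
  obtain ⟨C, hC⟩ := h T
  exact SE.of_bdd (fun s _ => (Real.exp_pos _).le) C hC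

lemma Slow.const (r : ℝ) (c : ℂ) : Slow r (fun _ => c) :=
  Slow.of_bdd (differentiableOn_const c) fun _ => ⟨‖c‖, fun _ _ => le_rfl⟩

lemma Slow.congr {r : ℝ} {f g : ℂ → ℂ} (hf : Slow r f) (h : ∀ s ∈ U r, g s = f s) :
    Slow r g := by
  refine ⟨hf.1.congr h, fun T ε hε => ?_⟩
  obtain ⟨C, hC⟩ := hf.2 T ε hε
  exact ⟨C, fun s hs => by rw [h s hs.1]; exact hC s hs⟩

lemma Slow.mono {r r' : ℝ} {f : ℂ → ℂ} (hf : Slow r f) (h : r ≤ r') : Slow r' f := by
  refine ⟨hf.1.mono (U_mono h), fun T ε hε => ?_⟩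
  obtain ⟨C, hC⟩ := hf.2 T ε hε
  exact ⟨C, fun s hs => hC s ⟨U_mono h hs.1, hs.2⟩⟩

lemma Slow.sum {r : ℝ} {α : Type} (S : Finset α) (f : α → ℂ → ℂ)
    (h : ∀ a ∈ S, Slow r (f a)) : Slow r (fun s => ∑ a ∈ S, f a s) := by
  classical
  induction S using Finset.induction_on with
  | empty => simpa using Slow.const r 0
  | insert a S ha ih =>
    have h1 := (h a (Finset.mem_insert_self a S)).add
      (ih fun b hb => h b (Finset.mem_insert_of_mem hb))
    exact h1.congr fun s _ => Finset.sum_insert ha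

lemma Slow.prod {r : ℝ} {α : Type} (S : Finset α) (f : α → ℂ → ℂ)
    (h : ∀ a ∈ S, Slow r (f a)) : Slow r (fun s => ∏ a ∈ S, f a s) := by
  classical
  induction S using Finset.induction_on with
  | empty => simpa using Slow.const r 1
  | insert a S ha ih =>
    have h1 := (h a (Finset.mem_insert_self a S)).mul
      (ih fun b hb => h b (Finset.mem_insert_of_mem hb))
    exact h1.congr fun s _ => Finset.prod_insert ha

lemma Slow.pow {r : ℝ} {f : ℂ → ℂ} (hf : Slow r f) (n : ℕ) :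
    Slow r (fun s => f s ^ n) := by
  induction n with
  | zero => simpa using Slow.const r 1
  | succ n ih => exact (ih.mul hf).congr fun s _ => pow_succ _ _

lemma Slow.neg {r : ℝ} {f : ℂ → ℂ} (hf : Slow r f) : Slow r (fun s => - f s) :=
  ((Slow.const r (-1)).mul hf).congr fun s _ => by ring

lemma Slow.sub {r : ℝ} {f g : ℂ → ℂ} (hf : Slow r f) (hg : Slow r g) :
    Slow r (fun s => f s - g s) :=
  (hf.add hg.neg).congr fun s _ => by ring

/-- functions of polynomial growth in `exp (Re w)` are slow -/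
lemma Slow.of_poly {r : ℝ} {f : ℂ → ℂ} (hf : DifferentiableOn ℂ f (U r))
    (h : ∀ T : ℝ, ∃ (D : ℕ) (C : ℝ), ∀ s ∈ Us r T, ‖f s‖ ≤ C * Real.exp s.re ^ D) :
    Slow r f := by
  refine ⟨hf, fun T ε hε => ?_⟩
  obtain ⟨D, C, hC⟩ := h T
  refine ⟨|C| * (D.factorial / ε ^ D), fun s hs => (hC s hs).trans ?_⟩
  have h1 : (ε * Real.exp s.re) ^ D / D.factorial ≤ Real.exp (ε * Real.exp s.re) :=
    Real.pow_div_factorial_le_exp _ (by positivity) D
  have h3 : Real.exp s.re ^ D = (D.factorial / ε ^ D) * ((ε * Real.exp s.re) ^ D / D.factorial) := by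
    have : (D.factorial : ℝ) ≠ 0 := by positivity
    rw [mul_pow]
    field_simp
  calc C * Real.exp s.re ^ D ≤ |C| * Real.exp s.re ^ D := by
        apply mul_le_mul_of_nonneg_right (le_abs_self C) (by positivity)
    _ = |C| * (D.factorial / ε ^ D) * ((ε * Real.exp s.re) ^ D / D.factorial) := by rw [h3]; ring
    _ ≤ |C| * (D.factorial / ε ^ D) * Real.exp (ε * Real.exp s.re) := by
        apply mul_le_mul_of_nonneg_left h1 (by positivity)

/-- an elementary inequality: `exp (κ x) ≤ ε exp x + C` for `κ < 1` -/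
lemma exp_kappa {κ : ℝ} (hκ0 : 0 ≤ κ) (hκ1 : κ < 1) (K ε : ℝ) (hε : 0 < ε) :
    ∃ C : ℝ, ∀ x : ℝ, K * Real.exp (κ * x) ≤ ε * Real.exp x + C := by
  -- for `x ≥ x₀` the left side is at most the first term
  set x₀ : ℝ := Real.log ((|K| + 1) / ε) / (1 - κ) with hx₀
  have h1κ : 0 < 1 - κ := by linarith
  refine ⟨|K| * Real.exp (κ * x₀), fun x => ?_⟩
  have hK : K * Real.exp (κ * x) ≤ |K| * Real.exp (κ * x) :=
    mul_le_mul_of_nonneg_right (le_abs_self K) (Real.exp_pos _).le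
  rcases le_total x x₀ with h | h
  · have h2 : |K| * Real.exp (κ * x) ≤ |K| * Real.exp (κ * x₀) := by
      apply mul_le_mul_of_nonneg_left _ (abs_nonneg _)
      exact Real.exp_le_exp.2 (mul_le_mul_of_nonneg_left h hκ0)
    have h3 : 0 ≤ ε * Real.exp x := by positivity
    linarith
  · have h2 : (|K| + 1) / ε ≤ Real.exp ((1 - κ) * x) := by
      rw [← Real.log_le_iff_le_exp (by positivity)]
      have : Real.log ((|K| + 1) / ε) = (1 - κ) * x₀ := by
        rw [hx₀]; field_simp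
      rw [this]
      exact mul_le_mul_of_nonneg_left h h1κ.le
    have h4 : |K| + 1 ≤ ε * Real.exp ((1 - κ) * x) := by
      rw [div_le_iff₀ hε] at h2
      linarith
    have h5 : Real.exp x = Real.exp ((1 - κ) * x) * Real.exp (κ * x) := by
      rw [← Real.exp_add]; congr 1; ring
    have h6 : |K| * Real.exp (κ * x) ≤ ε * Real.exp x := by
      rw [h5]
      have := Real.exp_pos (κ * x)
      nlinarith
    have h7 : 0 ≤ |K| * Real.exp (κ * x₀) := by positivity
    linarith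

/-- exponentials of functions of smaller order are slow -/
lemma Slow.exp_of_lower {r κ : ℝ} (hκ0 : 0 ≤ κ) (hκ1 : κ < 1) {f : ℂ → ℂ}
    (hf : DifferentiableOn ℂ f (U r))
    (h : ∀ T : ℝ, ∃ K : ℝ, ∀ s ∈ Us r T, ‖f s‖ ≤ K * Real.exp (κ * s.re)) :
    Slow r (fun s => exp (f s)) := by
  refine ⟨hf.cexp, fun T ε hε => ?_⟩
  obtain ⟨K, hK⟩ := h T
  obtain ⟨C, hC⟩ := exp_kappa hκ0 hκ1 K ε hε
  refine ⟨Real.exp C, fun s hs => ?_⟩
  rw [norm_exp, ← Real.exp_add]
  apply Real.exp_le_exp.2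
  have h1 : (f s).re ≤ K * Real.exp (κ * s.re) := (re_le_norm _).trans (hK s hs)
  have h2 := hC s.re
  linarith

/-! ### exponential polynomials -/

lemma EP_iff {r : ℝ} {f : ℂ → ℂ} :
    EP r f ↔ ES (U r) (Slow r) (fun ω s => exp (ω * exp s)) f := Iff.rfl

section EPsec

variable {r : ℝ}

private lemma e0 : Slow r (fun _ => 0) := Slow.const r 0
private lemma e1 : Slow r (fun _ => 1) := Slow.const r 1
private lemma ea : ∀ f g : ℂ → ℂ, Slow r f → Slow r g → Slow r (fun y => f y + g y) :=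
  fun _ _ h1 h2 => h1.add h2
private lemma em : ∀ f g : ℂ → ℂ, Slow r f → Slow r g → Slow r (fun y => f y * g y) :=
  fun _ _ h1 h2 => h1.mul h2
private lemma ex : ∀ a b s : ℂ, exp ((a + b) * exp s) = exp (a * exp s) * exp (b * exp s) := by
  intro a b s
  rw [add_mul, exp_add]
private lemma ex0 : ∀ s ∈ U r, exp (0 * exp s) = 1 := by
  intro s _
  rw [zero_mul, exp_zero]

lemma EP.congr {f g : ℂ → ℂ} (hf : EP r f) (h : ∀ s ∈ U r, g s = f s) : EP r g :=
  Pool.Agent.W175.GF.ES.congr hf h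

lemma EP.single {g : ℂ → ℂ} (hg : Slow r g) (ω : ℂ) :
    EP r (fun s => g s * exp (ω * exp s)) :=
  Pool.Agent.W175.GF.ES.single (D := U r) (S := Slow r) (χ := fun ω s => exp (ω * exp s)) hg ω

lemma EP.of_slow {g : ℂ → ℂ} (hg : Slow r g) : EP r g := Pool.Agent.W175.GF.ES.of hg ex0

lemma EP.const (c : ℂ) : EP r (fun _ => c) := EP.of_slow (Slow.const r c)

lemma EP.add {f g : ℂ → ℂ} (hf : EP r f) (hg : EP r g) : EP r (fun s => f s + g s) :=
  Pool.Agent.W175.GF.ES.add e0 ea hf hg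

lemma EP.mul {f g : ℂ → ℂ} (hf : EP r f) (hg : EP r g) : EP r (fun s => f s * g s) :=
  Pool.Agent.W175.GF.ES.mul e0 ea em ex hf hg

lemma EP.neg {f : ℂ → ℂ} (hf : EP r f) : EP r (fun s => - f s) :=
  ((EP.const (-1)).mul hf).congr fun s _ => by ring

lemma EP.sub {f g : ℂ → ℂ} (hf : EP r f) (hg : EP r g) : EP r (fun s => f s - g s) :=
  (hf.add hg.neg).congr fun s _ => by ring

lemma EP.sum {α : Type} (A : Finset α) (f : α → ℂ → ℂ) (hf : ∀ a ∈ A, EP r (f a)) :
    EP r (fun s => ∑ a ∈ A, f a s) := Pool.Agent.W175.GF.ES.sum e0 ea A f hf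

lemma EP.prod {α : Type} (A : Finset α) (f : α → ℂ → ℂ) (hf : ∀ a ∈ A, EP r (f a)) :
    EP r (fun s => ∏ a ∈ A, f a s) := Pool.Agent.W175.GF.ES.prod e0 e1 ea em ex ex0 A f hf

lemma EP.pow {f : ℂ → ℂ} (hf : EP r f) (n : ℕ) : EP r (fun s => f s ^ n) :=
  Pool.Agent.W175.GF.ES.pow e0 e1 ea em ex ex0 hf n

lemma EP.diff {f : ℂ → ℂ} (hf : EP r f) : DifferentiableOn ℂ f (U r) := by
  obtain ⟨W, R, h1, h2⟩ := hf
  have h3 : DifferentiableOn ℂ (fun s => ∑ ω ∈ W, R ω s * exp (ω * exp s)) (U r) := by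
    apply DifferentiableOn.fun_sum
    intro ω hω
    apply (h1 ω hω).1.mul
    apply DifferentiableOn.cexp
    apply DifferentiableOn.const_mul
    exact differentiable_exp.differentiableOn
  exact h3.congr h2

/-- exponentials of `a exp s + h` with `h` of smaller order -/
lemma EP.exp_lower {κ : ℝ} (hκ0 : 0 ≤ κ) (hκ1 : κ < 1) (a : ℂ) {h : ℂ → ℂ}
    (hh : DifferentiableOn ℂ h (U r))
    (hK : ∀ T : ℝ, ∃ K : ℝ, ∀ s ∈ Us r T, ‖h s‖ ≤ K * Real.exp (κ * s.re)) (v : ℂ) :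
    EP r (fun s => exp (v * (a * exp s + h s))) := by
  have h1 : Slow r (fun s => exp (v * h s)) := by
    apply Slow.exp_of_lower hκ0 hκ1 (hh.const_mul v)
    intro T
    obtain ⟨K, hK⟩ := hK T
    refine ⟨‖v‖ * K, fun s hs => ?_⟩
    rw [norm_mul, mul_assoc]
    exact mul_le_mul_of_nonneg_left (hK s hs) (norm_nonneg _)
  refine (EP.single h1 (v * a)).congr fun s _ => ?_
  rw [← exp_add]
  congr 1
  ring

end EPsec

end Pool.Agent.K9h26.GE
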