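import Pool.Agent.K9h26.GE.LT
import Pool.Agent.W712.GF.LT

set_option autoImplicit false

/-!
Values of `Γ` at polynomials: algebraic independence over the exponential polynomials.
-/

namespace Pool.Agent.K9h26.GE

open Complex Filter Topology
open Pool.Agent.W175.GF (S_TG S_RG)

/-- the punctured disc -/
abbrev V (r : ℝ) : Set ℂ := Pool.Agent.W175.GF.U r

lemma slow_ep {M : ℕ} (hM : 2 ≤ M) {r : ℝ} (hr1 : r < 1) {f : ℂ → ℂ}
    (hf : Pool.Agent.W175.GF.EP 1 r f) : Pool.Agent.W175.GF.Slow M r f := by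
  obtain ⟨W, R, hR, hf⟩ := hf
  have h1 : Pool.Agent.W175.GF.Slow M r (fun s => ∑ ω ∈ W, R ω s * exp (ω * s⁻¹ ^ 1)) := by
    apply Pool.Agent.W175.GF.Slow.sum
    intro ω hω
    apply Pool.Agent.W175.GF.Slow.mul
    · obtain ⟨h2, h3⟩ := hR ω hω
      refine ⟨h2, fun ε hε => ?_⟩
      obtain ⟨C, hC0, hC⟩ := Pool.Agent.W175.GF.SE.nonneg h3 ε hε
      refine ⟨C, fun s hs => (hC s hs).trans ?_⟩
      have hx := Pool.Agent.W712.GF.U_inv hr1 hs
      have h4 : ‖s‖⁻¹ ^ 1 ≤ ‖s‖⁻¹ ^ M := pow_le_pow_right₀ hx (by omega)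
      gcongr
    · apply Pool.Agent.W175.GF.Slow.exp_of_lower (by omega) (K := ‖ω‖)
      · exact Pool.Agent.W712.GF.diff_inv_pow ω 1
      · intro s hs
        have hx := Pool.Agent.W712.GF.U_inv hr1 hs
        have h4 : ‖s‖⁻¹ ^ 1 ≤ ‖s‖⁻¹ ^ (M - 1) := pow_le_pow_right₀ hx (by omega)
        rw [norm_mul, norm_pow, norm_inv]
        exact mul_le_mul_of_nonneg_left h4 (norm_nonneg _)
  exact h1.congr hf

/-- the local theorem with coefficients which are exponential polynomials in `1/s` -/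
theorem ltP (h : S_TG) (h2 : S_RG) : ∀ n : ℕ, ∀ (r : ℝ) (ι : Type) [Fintype ι],
    Fintype.card ι = n → ∀ (z : ι → ℂ → ℂ), 0 < r → r < 1 →
  (∀ i, DifferentiableOn ℂ (z i) (V r)) →
  (∀ i, ∃ (m : ℕ) (a : ℂ) (K : ℝ), 1 ≤ m ∧ a ≠ 0 ∧
    ∀ s ∈ V r, ‖z i s - a * s⁻¹ ^ m‖ ≤ K * ‖s‖⁻¹ ^ (m - 1)) →
  (∀ i j, i ≠ j → ∀ p q : ℚ, ¬ ∀ s ∈ V r, z i s = p * z j s + q) →
  ∀ (N : Finset (ι → ℕ)) (c : (ι → ℕ) → ℂ → ℂ), (∀ k ∈ N, Pool.Agent.W175.GF.EP 1 r (c k)) →
  (∀ s ∈ V r, ∑ k ∈ N, c k s * ∏ i, (Gamma (z i s))⁻¹ ^ k i = 0) →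
  ∀ k ∈ N, ∀ s ∈ V r, c k s = 0 := by
  classical
  intro n
  induction n using Nat.strong_induction_on with
  | _ n ih =>
  intro r ι _ hcard z hr0 hr1 hz hpole hind N c hc hrel
  rcases isEmpty_or_nonempty ι with hι | hι
  · exact split_empty (fun i s => (Gamma (z i s))⁻¹) c N (V r) hrel
  · choose m a K hm ha hK using hpole
    obtain ⟨i0, hi0⟩ := Finite.exists_max m
    set M := m i0 with hM
    have hM1 : 1 ≤ M := hm i0
    refine split (fun i => m i = M) (fun i s => (Gamma (z i s))⁻¹) c N (V r) hrel ?_ ?_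
    · intro N' C hC hrel'
      have hCep : ∀ κ, Pool.Agent.W175.GF.EP M r (C κ) := by
        intro κ
        obtain ⟨N₁, hN₁, hCeq⟩ := hC κ
        rcases Nat.lt_or_ge M 2 with hM2 | hM2
        · have hM' : M = 1 := by omega
          have hem : IsEmpty {i // ¬ m i = M} := ⟨fun i => i.2 (by
            have := hi0 i.1
            have := hm i.1
            omega)⟩
          rw [hM']
          have h3 : Pool.Agent.W175.GF.EP 1 r (fun t => ∑ k ∈ N₁, c k t) :=
            Pool.Agent.W175.GF.EP.sum _ _ fun k hk => hc k (hN₁ hk)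
          refine h3.congr fun s _ => ?_
          rw [hCeq]
          simp only
          refine Finset.sum_congr rfl fun k _ => ?_
          rw [Finset.prod_of_isEmpty, mul_one]
        · apply Pool.Agent.W175.GF.EP.of_slow
          rw [hCeq]
          apply Pool.Agent.W175.GF.Slow.sum
          intro k hk
          apply Pool.Agent.W175.GF.Slow.mul (slow_ep hM2 hr1 (hc k (hN₁ hk)))
          apply Pool.Agent.W175.GF.Slow.prod
          intro i _
          apply Pool.Agent.W175.GF.Slow.pow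
          have hlt : m i.1 ≤ M - 1 := by
            have h1 := hi0 i.1
            have h2 := i.2
            omega
          apply Pool.Agent.W712.GF.slow_rg h2 hM1 hr1 (hz i.1) (|K i.1| + ‖a i.1‖)
          intro s hs
          have hx := Pool.Agent.W712.GF.U_inv hr1 hs
          have h3 : ‖s‖⁻¹ ^ (m i.1 - 1) ≤ ‖s‖⁻¹ ^ (M - 1) := pow_le_pow_right₀ hx (by omega)
          have h4 : ‖s‖⁻¹ ^ (m i.1) ≤ ‖s‖⁻¹ ^ (M - 1) := pow_le_pow_right₀ hx hlt
          calc ‖z i.1 s‖ = ‖(z i.1 s - a i.1 * s⁻¹ ^ m i.1) + a i.1 * s⁻¹ ^ m i.1‖ := by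
                congr 1; ring
            _ ≤ ‖z i.1 s - a i.1 * s⁻¹ ^ m i.1‖ + ‖a i.1 * s⁻¹ ^ m i.1‖ := norm_add_le _ _
            _ ≤ K i.1 * ‖s‖⁻¹ ^ (m i.1 - 1) + ‖a i.1‖ * ‖s‖⁻¹ ^ m i.1 := by
                apply add_le_add (hK i.1 s hs)
                rw [norm_mul, norm_pow, norm_inv]
            _ ≤ |K i.1| * ‖s‖⁻¹ ^ (M - 1) + ‖a i.1‖ * ‖s‖⁻¹ ^ (M - 1) := by
                apply add_le_add
                · calc K i.1 * ‖s‖⁻¹ ^ (m i.1 - 1) ≤ |K i.1| * ‖s‖⁻¹ ^ (m i.1 - 1) :=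
                        mul_le_mul_of_nonneg_right (le_abs_self _) (by positivity)
                    _ ≤ _ := mul_le_mul_of_nonneg_left h3 (abs_nonneg _)
                · exact mul_le_mul_of_nonneg_left h4 (norm_nonneg _)
            _ = (|K i.1| + ‖a i.1‖) * ‖s‖⁻¹ ^ (M - 1) := by ring
      have key := h M r {i : ι // m i = M} (fun i => a i.1)
        (fun i s => z i.1 s - a i.1 * s⁻¹ ^ M) (∑ i, |K i|) hM1 hr0 hr1 (fun i => ha i.1)
        (fun i => (hz i.1).sub (Pool.Agent.W712.GF.diff_inv_pow (a i.1) M)) ?_ ?_ N' C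
        (fun κ _ => hCep κ) ?_
      · exact key
      · intro i s hs
        have h1 := hK i.1 s hs
        rw [i.2] at h1
        refine h1.trans (mul_le_mul_of_nonneg_right ?_ (by positivity))
        exact (le_abs_self _).trans
          (Finset.single_le_sum (f := fun i => |K i|) (fun i _ => abs_nonneg _)
            (Finset.mem_univ i.1))
      · intro i j hij p q hcon
        apply hind i.1 j.1 (fun h' => hij (Subtype.ext h')) p q
        intro s hs
        have := hcon s hs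
        simpa using this
      · intro s hs
        have h1 := hrel' s hs
        simp only [add_sub_cancel]
        exact h1
    · intro N' c' hc' hrel'
      have hcard' : Fintype.card {i : ι // ¬ m i = M} < n := by
        rw [← hcard]
        apply Fintype.card_subtype_lt (x := i0)
        simp [hM]
      refine ih _ hcard' r {i : ι // ¬ m i = M} rfl (fun i => z i.1) hr0 hr1 (fun i => hz i.1)
        (fun i => ⟨m i.1, a i.1, K i.1, hm i.1, ha i.1, hK i.1⟩)
        (fun i j hij p q => hind i.1 j.1 (fun h' => hij (Subtype.ext h')) p q) N' c' ?_ hrel'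
      intro l hl
      obtain ⟨k, hk, h1⟩ := hc' l hl
      rw [h1]
      exact hc k hk

lemma XPpoly_bd (q : Polynomial ℂ) (d : ℕ) (hd : q.natDegree ≤ d) :
    ∃ K : ℝ, 0 ≤ K ∧ ∀ x : ℂ, 1 ≤ ‖x‖ → ‖q.eval x‖ ≤ K * ‖x‖ ^ d := by
  refine ⟨∑ i ∈ Finset.range (q.natDegree + 1), ‖q.coeff i‖,
    Finset.sum_nonneg fun _ _ => norm_nonneg _, fun x hx => ?_⟩
  rw [Polynomial.eval_eq_sum_range, Finset.sum_mul]
  refine (norm_sum_le _ _).trans (Finset.sum_le_sum fun i hi => ?_)
  rw [norm_mul, norm_pow]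
  refine mul_le_mul_of_nonneg_left (pow_le_pow_right₀ hx ?_) (norm_nonneg _)
  have := Finset.mem_range.1 hi
  omega

end Pool.Agent.K9h26.GE
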