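import Pool.Agent.K9h26.GE.XP
import Pool.Agent.K9h26.GE.Poly
import Pool.Agent.W175.GF.Final

set_option autoImplicit false

/-!
The functional theorem: values of `Γ` at exponential polynomials.
-/

namespace Pool.Agent.K9h26.GE

open Complex Filter Topology
open Pool.Agent.W175.GF (sepF regF regjF tgF rgF)

/-- identity theorem on the plane from a half plane -/
lemma zero_of_half {f : ℂ → ℂ} (hf : Differentiable ℂ f) {r : ℝ} (h : ∀ s ∈ U r, f s = 0) :
    ∀ t, f t = 0 := by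
  obtain ⟨s₀, hs₀⟩ := U_nonempty r
  have hev : f =ᶠ[nhds s₀] 0 := by
    filter_upwards [(U_open r).mem_nhds hs₀] with s hs
    exact h s hs
  have ha : AnalyticOnNhd ℂ f Set.univ := hf.differentiableOn.analyticOnNhd isOpen_univ
  have := ha.eqOn_zero_of_preconnected_of_eventuallyEq_zero isPreconnected_univ
    (Set.mem_univ _) hev
  exact fun t => this (Set.mem_univ t)

lemma ginv_diff {f : ℂ → ℂ} (hf : Differentiable ℂ f) : Differentiable ℂ (fun t => (Gamma (f t))⁻¹) :=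
  differentiable_one_div_Gamma.comp hf

/-- nonconstant exponential polynomials without positive and negative frequencies -/
lemma poly_data {q : Polynomial ℂ} (hq : 1 ≤ q.natDegree) :
    ∃ (m : ℕ) (a : ℂ) (K : ℝ), 1 ≤ m ∧ a ≠ 0 ∧
      ∀ s ∈ V (1 / 2), ‖q.eval s⁻¹ - a * s⁻¹ ^ m‖ ≤ K * ‖s‖⁻¹ ^ (m - 1) := by
  obtain ⟨K, hK0, hK⟩ := XPpoly_bd q.eraseLead (q.natDegree - 1) q.eraseLead_natDegree_le
  refine ⟨q.natDegree, q.leadingCoeff, K, hq, ?_, fun s hs => ?_⟩
  · rw [Polynomial.leadingCoeff_ne_zero]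
    rintro rfl
    simp at hq
  · have h1 : q.eval s⁻¹ - q.leadingCoeff * s⁻¹ ^ q.natDegree = q.eraseLead.eval s⁻¹ := by
      have h2 := congrArg (Polynomial.eval s⁻¹) q.eraseLead_add_C_mul_X_pow
      rw [Polynomial.eval_add, Polynomial.eval_mul, Polynomial.eval_C, Polynomial.eval_pow,
        Polynomial.eval_X] at h2
      linear_combination -h2
    rw [h1, ← norm_inv]
    apply hK
    rw [norm_inv]
    exact Pool.Agent.W712.GF.U_inv (by norm_num) hs

lemma xp_ep {c : ℂ → ℂ} (hc : XP c) : Pool.Agent.W175.GF.EP 1 (1 / 2) (fun s => c s⁻¹) := by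
  obtain ⟨W, p, h⟩ := hc
  refine ⟨W, fun ω s => (p ω).eval s⁻¹, fun ω _ => ?_, fun s _ => ?_⟩
  · obtain ⟨K, hK0, hK⟩ := poly_bd (p ω)
    refine Pool.Agent.W175.GF.Slow.of_poly le_rfl ?_ (p ω).natDegree K ?_ (by norm_num)
    · exact (p ω).differentiable.comp_differentiableOn
        (differentiableOn_id.inv fun s hs => Pool.Agent.W175.GF.U_ne hs)
    · intro s hs
      rw [← norm_inv]
      apply hK
      rw [norm_inv]
      exact Pool.Agent.W712.GF.U_inv (by norm_num) hs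
  · show c s⁻¹ = _
    rw [h]
    simp only [pow_one]

/-- polynomials -/
lemma elim_poly {ι : Type} [Fintype ι] (q : ι → Polynomial ℂ) (hq : ∀ i, 1 ≤ (q i).natDegree)
    (hH : ∀ i j, i ≠ j → ∀ p p' : ℚ, ¬ ∀ t : ℂ, (q i).eval t = p * (q j).eval t + p')
    (N : Finset (ι → ℕ)) (c : (ι → ℕ) → ℂ → ℂ) (hc : ∀ k ∈ N, XP (c k))
    (hrel : ∀ t, ∑ k ∈ N, c k t * ∏ i, (Gamma ((q i).eval t))⁻¹ ^ k i = 0) :
    ∀ k ∈ N, ∀ t, c k t = 0 := by
  have hinv : DifferentiableOn ℂ (fun s : ℂ => s⁻¹) (V (1 / 2)) :=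
    differentiableOn_id.inv fun s hs => Pool.Agent.W175.GF.U_ne hs
  have hopen : ∀ f : ℂ → ℂ, Differentiable ℂ f → (∀ s ∈ V (1 / 2), f s⁻¹ = 0) → ∀ t, f t = 0 := by
    intro f hf h
    refine zero_of_half (r := 3) hf fun s hs => ?_
    have hs' : (3 : ℝ) < s.re := hs
    have hn : 3 < ‖s‖ := hs'.trans_le (re_le_norm s)
    have h1 : s⁻¹ ∈ V (1 / 2) := by
      constructor
      · rw [norm_inv]; positivity
      · rw [norm_inv, inv_lt_comm₀ (by linarith) (by norm_num)]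
        norm_num
        linarith
    have h2 := h _ h1
    rwa [inv_inv] at h2
  intro k hk
  refine hopen (c k) (hc k hk).diff ?_
  refine ltP tgF rgF _ (1 / 2) ι rfl (fun i s => (q i).eval s⁻¹) (by norm_num) (by norm_num)
    (fun i => (q i).differentiable.comp_differentiableOn hinv) (fun i => poly_data (hq i)) ?_ N
    (fun k s => c k s⁻¹) (fun k hk => xp_ep (hc k hk)) (fun s _ => hrel _) k hk
  intro i j hij p p' hcon
  apply hH i j hij p p'
  intro t
  have h1 : Differentiable ℂ (fun t => (q i).eval t - (p * (q j).eval t + p')) :=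
    (q i).differentiable.sub (((q j).differentiable.const_mul _).add_const _)
  exact sub_eq_zero.1 (hopen _ h1 (fun s hs => sub_eq_zero.2 (hcon s hs)) t)

/-- the rotation which makes `ω₀` a positive number -/
lemma rot {ω₀ : ℂ} (h0 : ω₀ ≠ 0) : ∃ u : ℂ, u ≠ 0 ∧ ‖u‖ = 1 ∧ ω₀ * u = (‖ω₀‖ : ℝ) ∧
    ∀ ν : ℂ, ‖ν‖ ≤ ‖ω₀‖ → ν ≠ ω₀ → (ν * u).re < ‖ω₀‖ := by
  have hn : (0 : ℝ) < ‖ω₀‖ := norm_pos_iff.2 h0
  have hnc : ((‖ω₀‖ : ℝ) : ℂ) ≠ 0 := by exact_mod_cast hn.ne'
  set u : ℂ := (starRingEnd ℂ) ω₀ / (‖ω₀‖ : ℝ) with hu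
  have h1 : ω₀ * u = (‖ω₀‖ : ℝ) := by
    rw [hu, ← mul_div_assoc, mul_conj, normSq_eq_norm_sq]
    rw [div_eq_iff hnc]
    push_cast
    ring
  have h2 : ‖u‖ = 1 := by
    rw [hu, norm_div, RCLike.norm_conj, norm_real, norm_norm]
    exact div_self hn.ne'
  have hu0 : u ≠ 0 := by
    intro h
    rw [h, norm_zero] at h2
    exact zero_ne_one h2
  refine ⟨u, hu0, h2, h1, fun ν hν hne => ?_⟩
  have h3 : ‖ν * u‖ ≤ ‖ω₀‖ := by rw [norm_mul, h2, mul_one]; exact hν
  have h4 := re_le_norm (ν * u)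
  rcases lt_or_eq_of_le (h4.trans h3) with h5 | h5
  · exact h5
  · exfalso
    apply hne
    have h6 : (ν * u).im = 0 := by
      have h7 := Complex.sq_norm_sub_sq_re (ν * u)
      have h8 : ‖ν * u‖ ^ 2 ≤ ‖ω₀‖ ^ 2 := pow_le_pow_left₀ (norm_nonneg _) h3 2
      rw [h5] at h7
      nlinarith [sq_nonneg (ν * u).im]
    have h7 : ν * u = ω₀ * u := by
      rw [h1]
      exact Complex.ext (by rw [h5, ofReal_re]) (by rw [h6, ofReal_im])
    exact mul_right_cancel₀ hu0 h7

lemma exists_kappa {M : ℝ} (W : Finset ℂ) (g : ℂ → ℝ) (h : ∀ ν ∈ W, g ν < M) :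
    ∃ κ : ℝ, (∀ ν ∈ W, g ν < κ) ∧ κ < M := by
  have h3 : ∀ᶠ κ in 𝓝[<] M, ∀ ν ∈ W, g ν < κ := by
    rw [Filter.eventually_all_finset]
    intro ν hν
    filter_upwards [Ioo_mem_nhdsLT (h ν hν)] with κ hκ
    exact hκ.1
  have h4 : ∀ᶠ κ in 𝓝[<] M, κ < M := self_mem_nhdsWithin
  exact (h3.and h4).exists

/-- **The functional theorem.** The values of `Γ` at exponential polynomials in the class `Good`
are algebraically independent over the exponential polynomials. -/
theorem func_aux : ∀ (n : ℕ) (ι : Type) [Fintype ι], Fintype.card ι = n → ∀ (f : ι → ℂ → ℂ)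
    (W : ι → Finset ℂ) (p : ι → ℂ → Polynomial ℂ),
    (∀ i t, f i t = ∑ ω ∈ W i, (p i ω).eval t * exp (ω * t)) →
    (∀ i, ∀ ω ∈ W i, ω ≠ 0 → (∀ ν ∈ W i, ‖ν‖ ≤ ‖ω‖) → ∃ a : ℂ, a ≠ 0 ∧ p i ω = Polynomial.C a) →
    (∀ i, ∀ v : ℂ, ¬ ∀ t, f i t = v) →
    (∀ i j, i ≠ j → ∀ p q : ℚ, ¬ ∀ t, f i t = p * f j t + q) →
    ∀ (N : Finset (ι → ℕ)) (c : (ι → ℕ) → ℂ → ℂ), (∀ k ∈ N, XP (c k)) →
    (∀ t, ∑ k ∈ N, c k t * ∏ i, (Gamma (f i t))⁻¹ ^ k i = 0) →
    ∀ k ∈ N, ∀ t, c k t = 0 := by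
  classical
  intro n
  induction n using Nat.strong_induction_on with
  | _ n ih =>
  intro ι _ hcard f W p hf hW hn hH N c hc hrel
  have hxp : ∀ i, XP (f i) := fun i => ⟨W i, p i, hf i⟩
  have hd : ∀ i, Differentiable ℂ (f i) := fun i => (hxp i).diff
  by_cases hall : ∀ i, ∀ ω ∈ W i, ω = 0
  · -- all functions are polynomials
    have hq : ∀ i t, f i t = (∑ ω ∈ W i, p i ω).eval t := by
      intro i t
      rw [hf, Polynomial.eval_finsetSum]
      refine Finset.sum_congr rfl fun ω hω => ?_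
      rw [hall i ω hω]
      simp
    refine elim_poly (fun i => ∑ ω ∈ W i, p i ω) ?_ ?_ N c hc ?_
    · intro i
      by_contra hcon
      have h0 : (∑ ω ∈ W i, p i ω).natDegree = 0 := by omega
      obtain ⟨a, ha⟩ := Polynomial.natDegree_eq_zero.1 h0
      apply hn i a
      intro t
      rw [hq i t, ← ha, Polynomial.eval_C]
    · intro i j hij p' q' hcon
      refine hH i j hij p' q' fun t => ?_
      rw [hq i t, hq j t]
      exact hcon t
    · intro t
      have h1 := hrel t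
      simp only [hq] at h1
      exact h1
  · push Not at hall
    obtain ⟨i₁, ω₁, hω₁, hω₁0⟩ := hall
    set S : Finset ℂ := Finset.univ.biUnion W with hS
    have hSne : S.Nonempty := ⟨ω₁, Finset.mem_biUnion.2 ⟨i₁, Finset.mem_univ _, hω₁⟩⟩
    obtain ⟨ω₀, hω₀S, hmax⟩ := S.exists_max_image (fun ω => ‖ω‖) hSne
    obtain ⟨i₀, -, hω₀⟩ := Finset.mem_biUnion.1 hω₀S
    have hmax' : ∀ i, ∀ ν ∈ W i, ‖ν‖ ≤ ‖ω₀‖ := fun i ν hν =>
      hmax ν (Finset.mem_biUnion.2 ⟨i, Finset.mem_univ _, hν⟩)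
    have hM0 : 0 < ‖ω₀‖ := (norm_pos_iff.2 hω₁0).trans_le (hmax' i₁ ω₁ hω₁)
    have hω₀0 : ω₀ ≠ 0 := norm_pos_iff.1 hM0
    obtain ⟨u, hu0, hu1, hu2, hu3⟩ := rot hω₀0
    set M : ℝ := ‖ω₀‖ with hM
    obtain ⟨κ, hκ, hκM⟩ := exists_kappa (M := M) (insert 0 (S.erase ω₀)) (fun ν => (ν * u).re) (by
      intro ν hν
      rcases Finset.mem_insert.1 hν with rfl | hν
      · simpa using hM0
      · exact hu3 ν (hmax ν (Finset.mem_of_mem_erase hν)) (Finset.ne_of_mem_erase hν))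
    have hκ0 : 0 < κ := by simpa using hκ 0 (Finset.mem_insert_self _ _)
    have hκν : ∀ i, ∀ ν ∈ W i, ν ≠ ω₀ → (ν * u).re < κ := fun i ν hν hne =>
      hκ ν (Finset.mem_insert_of_mem (Finset.mem_erase.2
        ⟨hne, Finset.mem_biUnion.2 ⟨i, Finset.mem_univ _, hν⟩⟩))
    -- the rotated functions
    set z : ι → ℂ → ℂ := fun i w => f i (u * w) with hz
    have hzd : ∀ i, Differentiable ℂ (z i) := fun i => ((hxp i).mul_arg u).diff
    have hterm : ∀ (i : ι) (ν : ℂ) (w : ℂ), (p i ν).eval (u * w) * exp (ν * (u * w)) =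
        ((p i ν).comp (Polynomial.C u * Polynomial.X)).eval w * exp (ν * u * w) := by
      intro i ν w
      rw [Polynomial.eval_comp, Polynomial.eval_mul, Polynomial.eval_C, Polynomial.eval_X,
        mul_assoc]
    have hsm : ∀ (i : ι) (W' : Finset ℂ), W' ⊆ W i → ω₀ ∉ W' → ∀ T : ℝ, ∃ K : ℝ, ∀ s ∈ Us 1 T,
        ‖∑ ν ∈ W', (p i ν).eval (u * s) * exp (ν * (u * s))‖ ≤ K * Real.exp (κ * s.re) := by
      intro i W' hW' hω T
      apply sum_bd
      intro ν hν
      simp only [hterm]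
      exact term_bd _ (ν * u) (hκν i ν (hW' hν) (fun h => hω (h ▸ hν))) T
    have hback : ∀ g : ℂ → ℂ, Differentiable ℂ g → (∀ s ∈ U 1, g (u * s) = 0) → ∀ t, g t = 0 := by
      intro g hg h t
      have h1 := zero_of_half (r := 1) (f := fun s => g (u * s)) (hg.comp (by fun_prop)) h (u⁻¹ * t)
      simpa [mul_inv_cancel_left₀ hu0] using h1
    have main := split (fun i => ω₀ ∈ W i) (fun i t => (Gamma (f i t))⁻¹) c N Set.univ
      (fun t _ => hrel t) ?_ ?_
    · exact fun k hk t => main k hk t (Set.mem_univ t)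
    · intro N' C hC hrel' k' hk' t _
      have hCd : Differentiable ℂ (C k') := by
        obtain ⟨N₁, hN₁, hCeq⟩ := hC k'
        rw [hCeq]
        apply Differentiable.fun_sum
        intro k hk
        apply (hc k (hN₁ hk)).diff.mul
        apply Differentiable.fun_finsetProd
        intro i _
        exact (ginv_diff (hd i.1)).pow _
      refine hback (C k') hCd ?_ t
      -- constants
      have hconst : ∀ i : {i // ω₀ ∈ W i}, ∃ a : ℂ, a ≠ 0 ∧ p i.1 ω₀ = Polynomial.C a :=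
        fun i => hW i.1 ω₀ i.2 hω₀0 (hmax' i.1)
      choose a ha hpa using hconst
      refine topE sepF regF regjF Pool.Agent.W688.GF.last zero_le_one hM0
        (fun i : {i // ω₀ ∈ W i} => z i.1) a κ hκM (fun i => (hzd i.1).differentiableOn) ha ?_ ?_
        N' (fun k s => C k (u * s)) ?_ ?_ k' hk'
      · intro i T
        have h1 : ∀ s, z i.1 s - a i * exp (M * s) =
            ∑ ν ∈ (W i.1).erase ω₀, (p i.1 ν).eval (u * s) * exp (ν * (u * s)) := by
          intro s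
          simp only [hz]
          rw [hf, ← Finset.add_sum_erase _ _ i.2, hpa, Polynomial.eval_C, ← mul_assoc, hu2]
          ring
        simp only [h1]
        exact hsm i.1 _ (Finset.erase_subset _ _) (Finset.notMem_erase _ _) T
      · intro i j hij p' q' hcon
        refine hH i.1 j.1 (fun h => hij (Subtype.ext h)) p' q' fun t => ?_
        have h1 : Differentiable ℂ (fun t => f i.1 t - (p' * f j.1 t + q')) :=
          (hd i.1).sub (((hd j.1).const_mul _).add_const _)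
        exact sub_eq_zero.1 (hback _ h1 (fun s hs => sub_eq_zero.2 (hcon s hs)) t)
      · intro k _
        obtain ⟨N₁, hN₁, hCeq⟩ := hC k
        have h6 : (fun s => C k (u * s)) = fun s => ∑ l ∈ N₁, c l (u * s) *
            ∏ i : {i // ¬ ω₀ ∈ W i}, (Gamma (z i.1 s))⁻¹ ^ l i.1 := by
          rw [hCeq]
        rw [h6]
        apply SlowM.sum
        intro l hl
        apply (((hc l (hN₁ hl)).mul_arg u).vslow M hM0).mul
        apply SlowM.prod
        intro i _
        apply SlowM.pow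
        refine slow_rg rgF hκ0.le hκM (hzd i.1).differentiableOn fun T => ?_
        have h1 : ∀ s, z i.1 s = ∑ ν ∈ W i.1, (p i.1 ν).eval (u * s) * exp (ν * (u * s)) :=
          fun s => hf i.1 (u * s)
        simp only [h1]
        exact hsm i.1 _ (Finset.Subset.refl _) i.2 T
      · intro s _
        exact hrel' (u * s) (Set.mem_univ _)
    · intro N₂ c₂ hc₂ hrel₂ l hl t _
      have hcard' : Fintype.card {i : ι // ¬ ω₀ ∈ W i} < n := by
        rw [← hcard]
        apply Fintype.card_subtype_lt (x := i₀)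
        simpa using hω₀
      refine ih _ hcard' {i : ι // ¬ ω₀ ∈ W i} rfl (fun i => f i.1) (fun i => W i.1)
        (fun i => p i.1) (fun i => hf i.1) (fun i => hW i.1) (fun i => hn i.1)
        (fun i j hij => hH i.1 j.1 fun h => hij (Subtype.ext h)) N₂ c₂ ?_
        (fun t => hrel₂ t (Set.mem_univ t)) l hl t
      intro l hl
      obtain ⟨k, hk, h⟩ := hc₂ l hl
      rw [h]
      exact hc k hk

/-- **The functional theorem.** The values of `Γ` at nonconstant exponential polynomials in the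
class `Good`, no two of which are related by a rational affine map, are algebraically independent
over the exponential polynomials. -/
theorem funcE {ι : Type} [Fintype ι] (f : ι → ℂ → ℂ) (hf : ∀ i, Good (f i))
    (hn : ∀ i, ∀ v : ℂ, ¬ ∀ t, f i t = v)
    (hH : ∀ i j, i ≠ j → ∀ p q : ℚ, ¬ ∀ t, f i t = p * f j t + q)
    (N : Finset (ι → ℕ)) (c : (ι → ℕ) → ℂ → ℂ) (hc : ∀ k ∈ N, XP (c k))
    (hrel : ∀ t, ∑ k ∈ N, c k t * ∏ i, (Gamma (f i t))⁻¹ ^ k i = 0) :
    ∀ k ∈ N, ∀ t, c k t = 0 := by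
  choose W p h1 h2 using hf
  exact func_aux _ ι rfl f W p h1 h2 hn hH N c hc hrel

end Pool.Agent.K9h26.GE
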