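import Pool.Agent.K9h26.GE.Sg

set_option autoImplicit false

/-!
Homogeneous relations.
-/

namespace Pool.Agent.K9h26.GE

open Complex Filter Topology
open Pool.Agent.W175.GF (Hp SlowH mn FJ S_SEP S_REG S_REGJ S_LAST Hp_re Hp_slit Hp_norm Hp_anti
  Hp_open mn_diff kap mn_eq Dir exists_fan_neg sepm)

variable {r : ℝ} {ι : Type} [Fintype ι] {a : ι → ℂ} {h : ι → ℂ → ℂ} {κ : ℝ}

/-- passing from an arbitrary relation to a homogeneous one -/
lemma homog (hS : S_SEP) (hR : S_REG) (D : DT r ι a h κ) (ζ : ℝ)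
    (hdir : ∀ i, Dir (a i * cis ζ)) (N : Finset (ι → ℕ)) (c : (ι → ℕ) → ℂ → ℂ)
    (hc : ∀ k ∈ N, EP r (c k))
    (hrel : ∀ s ∈ U r, ∑ k ∈ N, c k s * ∏ i, (Gamma (a i * exp s + h i s))⁻¹ ^ k i = 0)
    (k₀ : ι → ℕ) (hk₀ : k₀ ∈ N) (hne : ¬ ∀ s ∈ U r, c k₀ s = 0)
    (hall : ∀ c' : (ι → ℕ) → ℂ → ℂ, (∀ k ∈ N, EP r (c' k)) →
      (∀ s ∈ U r, ∑ k ∈ N, c' k s * ∏ i, (Gamma (a i * exp s + h i s))⁻¹ ^ k i = 0) →
      (∃ k ∈ N, ¬ ∀ s ∈ U r, c' k s = 0) → ∀ k ∈ N, ¬ ∀ s ∈ U r, c' k s = 0) :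
    ∃ (p : ℂ × ℂ) (ω : (ι → ℕ) → ℂ) (R : (ι → ℕ) → ℂ → ℂ),
      (∀ k ∈ N, Slow r (R k) ∧ (¬ ∀ s ∈ U r, R k s = 0) ∧
        p.1 = - ∑ i, k i * (a i * cis ζ) ∧
        p.2 = ω k * cis ζ - ∑ i, k i * kap (a i * cis ζ)) ∧
      ∀ s ∈ U r, ∑ k ∈ N, R k s * exp (ω k * exp s) *
        ∏ i, (Gamma (a i * exp s + h i s))⁻¹ ^ k i = 0 := by
  classical
  have hζm : cis ζ ≠ 0 := cis_ne ζ
  set b : ι → ℂ := fun i => a i * cis ζ with hb
  choose! W R hR1 hR2 using hc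
  obtain ⟨δ, hδ, hδ2, hfan⟩ := exists_fan_neg b hdir
  set ρ : ℝ := max 1 (Real.exp r) with hρ
  have hρ1 : 1 ≤ ρ := le_max_left _ _
  have hρ2 : Real.exp r ≤ ρ := le_max_right _ _
  have hρ0 : 0 ≤ ρ := by linarith
  set P : Finset (Σ _ : ι → ℕ, ℂ) := N.sigma W with hP
  set lam : (Σ _ : ι → ℕ, ℂ) → ℂ × ℂ := fun x =>
    (- ∑ i, x.1 i * b i, x.2 * cis ζ - ∑ i, x.1 i * kap (b i)) with hlam
  set SF : ι → ℂ → ℂ := fun i τ => (Gamma (a i * exp (sg ζ τ) + h i (sg ζ τ)))⁻¹ *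
      exp (mn (b i) τ) with hSF
  have hSFs : ∀ i, SlowH (-δ) 0 ρ (SF i) := fun i =>
    slow_reg hR D ζ i (by linarith) (by positivity) hρ2 hρ1 (hdir i).arg_le (hfan i)
  set RR : (Σ _ : ι → ℕ, ℂ) → ℂ → ℂ := fun x τ => R x.1 x.2 (sg ζ τ) * ∏ i, SF i τ ^ x.1 i
    with hRR
  have hRRs : ∀ x ∈ P, SlowH (-δ) 0 ρ (RR x) := by
    intro x hx
    rw [hP, Finset.mem_sigma] at hx
    apply SlowH.mul
    · exact slowH_of_slow ζ (by linarith) (by positivity) hρ2 (hR1 x.1 hx.1 x.2 hx.2)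
    · exact SlowH.prod _ _ fun i _ => (hSFs i).pow _
  -- the exponential factors
  have hfac : ∀ τ : ℂ, τ ≠ 0 → ∀ x : (Σ _ : ι → ℕ, ℂ),
      RR x τ * exp ((lam x).1 * (τ * log τ) + (lam x).2 * τ) =
      R x.1 x.2 (sg ζ τ) * exp (x.2 * exp (sg ζ τ)) *
        ∏ i, (Gamma (a i * exp (sg ζ τ) + h i (sg ζ τ)))⁻¹ ^ x.1 i := by
    intro τ hτ x
    simp only [hRR, hSF, mul_pow, Finset.prod_mul_distrib]
    have h1 : ∏ i, exp (mn (b i) τ) ^ x.1 i = exp (∑ i, x.1 i * mn (b i) τ) := by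
      rw [exp_sum]
      exact Finset.prod_congr rfl fun i _ => (exp_nat_mul _ _).symm
    rw [h1]
    have h2 : exp (∑ i, x.1 i * mn (b i) τ) * exp ((lam x).1 * (τ * log τ) + (lam x).2 * τ) =
        exp (x.2 * exp (sg ζ τ)) := by
      rw [← exp_add]
      congr 1
      rw [exp_sg hτ]
      simp only [hlam, mn_eq, mul_add, Finset.sum_add_distrib]
      have e1 : ∑ i, (x.1 i : ℂ) * (b i * (τ * log τ)) = (∑ i, x.1 i * b i) * (τ * log τ) := by
        rw [Finset.sum_mul]; exact Finset.sum_congr rfl fun i _ => by ring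
      have e2 : ∑ i, (x.1 i : ℂ) * (kap (b i) * τ) = (∑ i, x.1 i * kap (b i)) * τ := by
        rw [Finset.sum_mul]; exact Finset.sum_congr rfl fun i _ => by ring
      rw [e1, e2]
      ring
    calc _ = R x.1 x.2 (sg ζ τ) * (∏ i, (Gamma (a i * exp (sg ζ τ) + h i (sg ζ τ)))⁻¹ ^ x.1 i)
          * (exp (∑ i, x.1 i * mn (b i) τ) * exp ((lam x).1 * (τ * log τ) + (lam x).2 * τ)) := by
            ring
      _ = _ := by rw [h2]; ring
  have hslit : ∀ ψ ∈ Set.Ioo (-δ) 0, ∀ τ ∈ Hp ψ ρ, τ ≠ 0 ∧ sg ζ τ ∈ U r := by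
    intro ψ hψ τ hτ
    have hψ' : |ψ| < Real.pi / 2 := abs_lt.2 ⟨by linarith [hψ.1], by linarith [hψ.2, Real.pi_pos]⟩
    exact ⟨slitPlane_ne_zero (Hp_slit hψ' hρ0 hτ),
      sg_memU (lt_of_le_of_lt hρ2 (Hp_norm hτ))⟩
  have hzero : ∀ ψ ∈ Set.Ioo (-δ) 0, ∀ τ ∈ Hp ψ ρ,
      ∑ x ∈ P, RR x τ * exp ((lam x).1 * (τ * log τ) + (lam x).2 * τ) = 0 := by
    intro ψ hψ τ hτ
    obtain ⟨hτ0, hs⟩ := hslit ψ hψ τ hτ
    rw [← hrel _ hs]
    rw [hP, Finset.sum_sigma]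
    refine Finset.sum_congr rfl fun k hk => ?_
    rw [hR2 k hk _ hs, Finset.sum_mul]
    refine Finset.sum_congr rfl fun w _ => ?_
    rw [hfac τ hτ0]
  have hsep := sepm hS (ψ₁ := -δ) (ψ₂ := 0) (by linarith) (by linarith) (by positivity) hρ1 P lam RR
    hRRs hzero
  -- relation for each class on the punctured disc
  have hcls : ∀ p : ℂ × ℂ, ∀ s ∈ U r, ∑ k ∈ N, (∑ w ∈ W k with lam ⟨k, w⟩ = p,
      R k w s * exp (w * exp s)) * ∏ i, (Gamma (a i * exp s + h i s))⁻¹ ^ k i = 0 := by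
    intro p
    have hδ3 : -(δ / 2) ∈ Set.Ioo (-δ) 0 := ⟨by linarith, by linarith⟩
    have hψ' : |-(δ / 2)| < Real.pi / 2 := by rw [abs_neg, abs_of_pos (by linarith)]; linarith
    apply of_fan ζ hψ' hρ0 (ρ := ρ)
    · apply DifferentiableOn.fun_sum
      intro k hk
      apply DifferentiableOn.mul
      · apply DifferentiableOn.fun_sum
        intro w hw
        exact (EP.single (hR1 k hk w (Finset.mem_filter.1 hw).1) w).diff
      · apply DifferentiableOn.fun_finsetProd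
        intro i _
        apply DifferentiableOn.pow
        apply Complex.differentiable_one_div_Gamma.comp_differentiableOn
        apply DifferentiableOn.add
        · apply DifferentiableOn.const_mul
          exact differentiable_exp.differentiableOn
        · exact D.hh i
    · intro τ hτ
      obtain ⟨hτ0, hs⟩ := hslit _ hδ3 τ hτ
      have h1 := hsep p _ hδ3 τ hτ
      have h2 : (∑ x ∈ P with lam x = p, RR x τ) * exp (p.1 * (τ * log τ) + p.2 * τ) = 0 := by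
        rw [h1, zero_mul]
      rw [← h2, Finset.sum_mul, Finset.sum_filter, hP, Finset.sum_sigma]
      refine Finset.sum_congr rfl fun k hk => ?_
      rw [Finset.sum_mul, Finset.sum_filter]
      refine Finset.sum_congr rfl fun w _ => ?_
      by_cases hw : lam ⟨k, w⟩ = p
      · rw [if_pos hw, if_pos hw, ← hfac τ hτ0 ⟨k, w⟩, hw]
      · rw [if_neg hw, if_neg hw]
  -- choose a nonzero component of `c k₀`
  obtain ⟨w₀, hw₀, hRw₀⟩ : ∃ w ∈ W k₀, ¬ ∀ s ∈ U r, R k₀ w s = 0 := by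
    by_contra hcon
    push Not at hcon
    apply hne
    intro s hs
    rw [hR2 k₀ hk₀ s hs]
    apply Finset.sum_eq_zero
    intro w hw
    rw [hcon w hw s hs, zero_mul]
  set p := lam ⟨k₀, w₀⟩ with hp
  set c' : (ι → ℕ) → ℂ → ℂ := fun k s => ∑ w ∈ W k with lam ⟨k, w⟩ = p,
      R k w s * exp (w * exp s) with hc'
  have hc'EP : ∀ k ∈ N, EP r (c' k) := by
    intro k hk
    apply EP.sum
    intro w hw
    exact EP.single (hR1 k hk w (Finset.mem_filter.1 hw).1) w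
  have huniq : ∀ k w w', lam ⟨k, w⟩ = p → lam ⟨k, w'⟩ = p → w = w' := by
    intro k w w' h1 h2
    have h3 := congrArg Prod.snd (h1.trans h2.symm)
    simp only [hlam] at h3
    have h4 : w * cis ζ = w' * cis ζ := by linear_combination h3
    exact mul_right_cancel₀ hζm h4
  have hc'single : ∀ k ∈ N, ∀ w ∈ W k, lam ⟨k, w⟩ = p → ∀ s, c' k s = R k w s * exp (w * exp s) := by
    intro k _ w hw hl s
    simp only [hc']
    rw [Finset.sum_eq_single w]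
    · intro w' hw' hne'
      exact absurd (huniq k w' w (Finset.mem_filter.1 hw').2 hl) hne'
    · intro hnot
      exact absurd (Finset.mem_filter.2 ⟨hw, hl⟩) hnot
  have hc'k₀ : ¬ ∀ s ∈ U r, c' k₀ s = 0 := by
    intro hz
    apply hRw₀
    intro s hs
    have h1 := hz s hs
    rw [hc'single k₀ hk₀ w₀ hw₀ rfl] at h1
    exact (mul_eq_zero.1 h1).resolve_right (exp_ne_zero _)
  have hnz := hall c' hc'EP (hcls p) ⟨k₀, hk₀, hc'k₀⟩
  have hex : ∀ k ∈ N, ∃ w ∈ W k, lam ⟨k, w⟩ = p := by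
    intro k hk
    by_contra hcon
    push Not at hcon
    apply hnz k hk
    intro s _
    simp only [hc']
    apply Finset.sum_eq_zero
    intro w hw
    exact absurd (Finset.mem_filter.1 hw).2 (hcon w (Finset.mem_filter.1 hw).1)
  choose! ω hω1 hω2 using hex
  refine ⟨p, ω, fun k => R k (ω k), ?_, ?_⟩
  · intro k hk
    refine ⟨hR1 k hk _ (hω1 k hk), ?_, ?_, ?_⟩
    · intro hz
      apply hnz k hk
      intro s hs
      have h1 : R k (ω k) s = 0 := hz s hs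
      rw [hc'single k hk _ (hω1 k hk) (hω2 k hk), h1, zero_mul]
    · rw [← hω2 k hk]
    · rw [← hω2 k hk]
  · intro s hs
    rw [← hcls p s hs]
    refine Finset.sum_congr rfl fun k hk => ?_
    have := hc'single k hk _ (hω1 k hk) (hω2 k hk) s
    simp only [hc'] at this
    rw [this]

end Pool.Agent.K9h26.GE
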