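import Pool.Agent.K9h26.GE.Split

set_option autoImplicit false

/-!
Functions of different exponential growth on a right half plane.
-/

namespace Pool.Agent.K9h26.GE

open Complex Filter Topology
open Pool.Agent.W175.GF (SE S_SEP S_REG S_REGJ S_LAST S_RG)

/-- growth slower than `exp (ε exp (M Re w))` for all `ε > 0` -/
def SlowM (M r : ℝ) (f : ℂ → ℂ) : Prop :=
  DifferentiableOn ℂ f (U r) ∧ ∀ T : ℝ, SE (Us r T) (fun w => Real.exp (M * w.re)) f

/-- growth slower than `exp (ε exp (δ Re w))` for all `ε, δ > 0` -/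
def VSlow (r : ℝ) (f : ℂ → ℂ) : Prop := ∀ M : ℝ, 0 < M → SlowM M r f

/-- `f(w) = a exp(λ w) + O(exp(κ Re w))` in horizontal strips, with `a ≠ 0`, `λ > 0`, `κ < λ` -/
def Grow (r : ℝ) (f : ℂ → ℂ) : Prop :=
  ∃ (lam : ℝ) (a : ℂ) (κ : ℝ), 0 < lam ∧ a ≠ 0 ∧ κ < lam ∧
    ∀ T : ℝ, ∃ K : ℝ, ∀ s ∈ Us r T, ‖f s - a * exp (lam * s)‖ ≤ K * Real.exp (κ * s.re)

lemma SlowM.add {M r : ℝ} {f g : ℂ → ℂ} (hf : SlowM M r f) (hg : SlowM M r g) :
    SlowM M r (fun s => f s + g s) :=
  ⟨hf.1.add hg.1, fun T => SE.add (hf.2 T) (hg.2 T)⟩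

lemma SlowM.mul {M r : ℝ} {f g : ℂ → ℂ} (hf : SlowM M r f) (hg : SlowM M r g) :
    SlowM M r (fun s => f s * g s) :=
  ⟨hf.1.mul hg.1, fun T => SE.mul (hf.2 T) (hg.2 T)⟩

lemma SlowM.const (M r : ℝ) (c : ℂ) : SlowM M r (fun _ => c) :=
  ⟨differentiableOn_const c, fun _ => SE.of_bdd (fun _ _ => (Real.exp_pos _).le) ‖c‖
    fun _ _ => le_rfl⟩

lemma SlowM.sum {M r : ℝ} {α : Type} (S : Finset α) (f : α → ℂ → ℂ)
    (h : ∀ a ∈ S, SlowM M r (f a)) : SlowM M r (fun s => ∑ a ∈ S, f a s) := by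
  classical
  induction S using Finset.induction_on with
  | empty => simpa using SlowM.const M r 0
  | insert a S ha ih =>
    have h1 := (h a (Finset.mem_insert_self a S)).add
      (ih fun b hb => h b (Finset.mem_insert_of_mem hb))
    simpa only [Finset.sum_insert ha] using h1

lemma SlowM.prod {M r : ℝ} {α : Type} (S : Finset α) (f : α → ℂ → ℂ)
    (h : ∀ a ∈ S, SlowM M r (f a)) : SlowM M r (fun s => ∏ a ∈ S, f a s) := by
  classical
  induction S using Finset.induction_on with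
  | empty => simpa using SlowM.const M r 1
  | insert a S ha ih =>
    have h1 := (h a (Finset.mem_insert_self a S)).mul
      (ih fun b hb => h b (Finset.mem_insert_of_mem hb))
    simpa only [Finset.prod_insert ha] using h1

lemma SlowM.pow {M r : ℝ} {f : ℂ → ℂ} (hf : SlowM M r f) (n : ℕ) :
    SlowM M r (fun s => f s ^ n) := by
  induction n with
  | zero => simpa using SlowM.const M r 1
  | succ n ih => simpa only [pow_succ] using ih.mul hf

lemma SlowM.of_le {M M' r : ℝ} (hr : 0 ≤ r) (h : M ≤ M') {f : ℂ → ℂ} (hf : SlowM M r f) :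
    SlowM M' r f := by
  refine ⟨hf.1, fun T ε hε => ?_⟩
  obtain ⟨C, hC0, hC⟩ := Pool.Agent.W175.GF.SE.nonneg (hf.2 T) ε hε
  refine ⟨C, fun s hs => (hC s hs).trans ?_⟩
  have h1 : 0 ≤ s.re := hr.trans hs.1.le
  simp only
  gcongr

lemma VSlow.add {r : ℝ} {f g : ℂ → ℂ} (hf : VSlow r f) (hg : VSlow r g) :
    VSlow r (fun s => f s + g s) := fun M hM => (hf M hM).add (hg M hM)

lemma VSlow.mul {r : ℝ} {f g : ℂ → ℂ} (hf : VSlow r f) (hg : VSlow r g) :
    VSlow r (fun s => f s * g s) := fun M hM => (hf M hM).mul (hg M hM)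

lemma VSlow.sum {r : ℝ} {α : Type} (S : Finset α) (f : α → ℂ → ℂ)
    (h : ∀ a ∈ S, VSlow r (f a)) : VSlow r (fun s => ∑ a ∈ S, f a s) :=
  fun M hM => SlowM.sum S f fun a ha => h a ha M hM

lemma VSlow.prod {r : ℝ} {α : Type} (S : Finset α) (f : α → ℂ → ℂ)
    (h : ∀ a ∈ S, VSlow r (f a)) : VSlow r (fun s => ∏ a ∈ S, f a s) :=
  fun M hM => SlowM.prod S f fun a ha => h a ha M hM

lemma VSlow.pow {r : ℝ} {f : ℂ → ℂ} (hf : VSlow r f) (n : ℕ) :
    VSlow r (fun s => f s ^ n) := fun M hM => (hf M hM).pow n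

/-- `exp (κ x) ≤ ε exp (M x) + C` for `κ < M` -/
lemma exp_kappa' {κ M : ℝ} (hM : 0 < M) (hκ0 : 0 ≤ κ) (hκ1 : κ < M) (K ε : ℝ) (hε : 0 < ε) :
    ∃ C : ℝ, ∀ x : ℝ, K * Real.exp (κ * x) ≤ ε * Real.exp (M * x) + C := by
  obtain ⟨C, hC⟩ := exp_kappa (κ := κ / M) (by positivity) (by rwa [div_lt_one hM]) K ε hε
  refine ⟨C, fun x => ?_⟩
  have h := hC (M * x)
  have h1 : κ / M * (M * x) = κ * x := by field_simp
  rwa [h1] at h

/-- `1/Γ` of a function of smaller growth is slow -/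
lemma slow_rg (hRG : S_RG) {M μ r : ℝ} (hμ0 : 0 ≤ μ) (hμM : μ < M) {z : ℂ → ℂ}
    (hz : DifferentiableOn ℂ z (U r))
    (hK : ∀ T : ℝ, ∃ K : ℝ, ∀ s ∈ Us r T, ‖z s‖ ≤ K * Real.exp (μ * s.re)) :
    SlowM M r (fun s => (Gamma (z s))⁻¹) := by
  obtain ⟨C₀, hC₀⟩ := hRG
  refine ⟨differentiable_one_div_Gamma.comp_differentiableOn hz, fun T ε hε => ?_⟩
  obtain ⟨K₀, hK₀⟩ := hK T
  have hM : 0 < M := by linarith
  set C : ℝ := |C₀| with hC
  set K : ℝ := |K₀| with hK'
  have hC0 : 0 ≤ C := abs_nonneg _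
  have hK0 : 0 ≤ K := abs_nonneg _
  set η : ℝ := (M - μ) / 2 with hη
  have hη0 : 0 < η := by rw [hη]; linarith
  set L : ℝ := Real.log (K + 2) with hL
  have hL0 : 0 ≤ L := Real.log_nonneg (by linarith)
  obtain ⟨C', hC'⟩ := exp_kappa' (κ := μ + η) hM (by linarith) (by rw [hη]; linarith)
    (C * K * (L + μ / η)) ε hε
  refine ⟨C * Real.exp (C' + C * K * L), fun s hs => ?_⟩
  simp only
  set x := s.re with hx
  set u := ‖z s‖ with hu
  have hu0 : 0 ≤ u := norm_nonneg _
  have hu1 : u ≤ K * Real.exp (μ * x) :=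
    (hK₀ s hs).trans (mul_le_mul_of_nonneg_right (le_abs_self _) (Real.exp_pos _).le)
  have hmain : C * u * Real.log (u + 2) ≤ ε * Real.exp (M * x) + (C' + C * K * L) := by
    have h3 := hC' x
    have hlog0 : 0 ≤ Real.log (u + 2) := Real.log_nonneg (by linarith)
    rcases le_total 0 x with h0 | h0
    · have h1e : 1 ≤ Real.exp (μ * x) := Real.one_le_exp (by positivity)
      have h4 : Real.log (u + 2) ≤ L + μ * x := by
        have h5 : u + 2 ≤ (K + 2) * Real.exp (μ * x) := by nlinarith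
        have h6 := Real.log_le_log (by linarith) h5
        rwa [Real.log_mul (by positivity) (Real.exp_pos _).ne', Real.log_exp] at h6
      have h5 : x ≤ Real.exp (η * x) / η := by
        rw [le_div_iff₀ hη0]
        have := Real.add_one_le_exp (η * x)
        linarith
      have h6 : L + μ * x ≤ (L + μ / η) * Real.exp (η * x) := by
        have h7 : 1 ≤ Real.exp (η * x) := Real.one_le_exp (by positivity)
        have h8 : μ * x ≤ μ / η * Real.exp (η * x) := by
          calc μ * x ≤ μ * (Real.exp (η * x) / η) := mul_le_mul_of_nonneg_left h5 hμ0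
            _ = μ / η * Real.exp (η * x) := by ring
        nlinarith
      have h7 : C * u * Real.log (u + 2) ≤ C * (K * Real.exp (μ * x)) *
          ((L + μ / η) * Real.exp (η * x)) :=
        mul_le_mul (mul_le_mul_of_nonneg_left hu1 hC0) (h4.trans h6) hlog0 (by positivity)
      have h8 : C * (K * Real.exp (μ * x)) * ((L + μ / η) * Real.exp (η * x)) =
          C * K * (L + μ / η) * Real.exp ((μ + η) * x) := by
        rw [add_mul μ η x, Real.exp_add]; ring
      have h9 : 0 ≤ C * K * L := by positivity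
      linarith
    · have h1e : Real.exp (μ * x) ≤ 1 := Real.exp_le_one_iff.2 (mul_nonpos_of_nonneg_of_nonpos hμ0 h0)
      have hu2 : u ≤ K := by nlinarith
      have h4 : Real.log (u + 2) ≤ L := Real.log_le_log (by linarith) (by linarith)
      have h7 : C * u * Real.log (u + 2) ≤ C * K * L :=
        mul_le_mul (mul_le_mul_of_nonneg_left hu2 hC0) h4 hlog0 (by positivity)
      have h8 : 0 ≤ C * K * (L + μ / η) * Real.exp ((μ + η) * x) := by positivity
      linarith
  have hlog : 0 ≤ Real.log (u + 2) := Real.log_nonneg (by linarith)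
  calc ‖(Gamma (z s))⁻¹‖ ≤ C₀ * Real.exp (C₀ * u * Real.log (u + 2)) := hC₀ _
    _ ≤ C * Real.exp (C₀ * u * Real.log (u + 2)) :=
        mul_le_mul_of_nonneg_right (le_abs_self _) (Real.exp_nonneg _)
    _ ≤ C * Real.exp (ε * Real.exp (M * x) + (C' + C * K * L)) := by
        apply mul_le_mul_of_nonneg_left _ hC0
        apply Real.exp_le_exp.2
        refine le_trans ?_ hmain
        exact mul_le_mul_of_nonneg_right (mul_le_mul_of_nonneg_right (le_abs_self _) hu0) hlog
    _ = C * Real.exp (C' + C * K * L) * Real.exp (ε * Real.exp (M * x)) := by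
        rw [Real.exp_add]; ring

/-- functions of growth `M` give slow functions after the substitution `w/M` -/
lemma SlowM.scale {M r : ℝ} (hM : 0 < M) {f : ℂ → ℂ} (hf : SlowM M r f) :
    Slow (M * r) (fun w => f (w / M)) := by
  have hre : ∀ w : ℂ, (w / M).re = w.re / M := fun w => by
    rw [div_ofReal_re]
  have him : ∀ w : ℂ, (w / M).im = w.im / M := fun w => by
    rw [div_ofReal_im]
  have hmem : ∀ w ∈ U (M * r), w / M ∈ U r := by
    intro w hw
    have hw' : M * r < w.re := hw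
    show r < (w / M).re
    rw [hre, lt_div_iff₀ hM]
    linarith
  refine ⟨hf.1.comp (by fun_prop) hmem, fun T ε hε => ?_⟩
  obtain ⟨C, hC⟩ := hf.2 (T / M) ε hε
  refine ⟨C, fun w hw => ?_⟩
  have h1 := hC (w / M) ⟨hmem w hw.1, by
    rw [him, abs_div, abs_of_pos hM]
    exact div_le_div_of_nonneg_right hw.2 hM.le⟩
  simp only at h1
  rw [hre] at h1
  have h2 : M * (w.re / M) = w.re := by field_simp
  rwa [h2] at h1

/-- functions of the same exponential growth on a half plane, coefficients slow at this scale -/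
theorem topE (hS : S_SEP) (hR : S_REG) (hJ : S_REGJ) (hL : S_LAST) {r M : ℝ}
    (hr : 0 ≤ r) (hM0 : 0 < M) {ι : Type} [Fintype ι] (z : ι → ℂ → ℂ) (a : ι → ℂ) (κ : ℝ)
    (hκM : κ < M) (hz : ∀ i, DifferentiableOn ℂ (z i) (U r)) (ha : ∀ i, a i ≠ 0)
    (hK : ∀ i, ∀ T : ℝ, ∃ K : ℝ, ∀ s ∈ Us r T, ‖z i s - a i * exp (M * s)‖ ≤ K * Real.exp (κ * s.re))
    (hind : ∀ i j, i ≠ j → ∀ p q : ℚ, ¬ ∀ s ∈ U r, z i s = p * z j s + q)
    (N : Finset (ι → ℕ)) (C : (ι → ℕ) → ℂ → ℂ) (hC : ∀ k ∈ N, SlowM M r (C k))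
    (hrel : ∀ s ∈ U r, ∑ k ∈ N, C k s * ∏ i, (Gamma (z i s))⁻¹ ^ k i = 0) :
    ∀ k ∈ N, ∀ s ∈ U r, C k s = 0 := by
  classical
  set κ' : ℝ := max 0 (κ / M) with hκ'
  have hκ'0 : 0 ≤ κ' := le_max_left _ _
  have hκ'1 : κ' < 1 := by
    rw [hκ', max_lt_iff]
    exact ⟨one_pos, (div_lt_one hM0).2 hκM⟩
  have hκi : κ / M ≤ κ' := le_max_right _ _
  have hre : ∀ w : ℂ, (w / M).re = w.re / M := fun w => by rw [div_ofReal_re]
  have him : ∀ w : ℂ, (w / M).im = w.im / M := fun w => by rw [div_ofReal_im]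
  have hmem : ∀ w ∈ U (M * r), w / M ∈ U r := by
    intro w hw
    have hw' : M * r < w.re := hw
    show r < (w / M).re
    rw [hre, lt_div_iff₀ hM0]
    linarith
  have hmem' : ∀ s ∈ U r, (M : ℂ) * s ∈ U (M * r) := by
    intro s hs
    have hs' : r < s.re := hs
    show M * r < ((M : ℂ) * s).re
    rw [re_ofReal_mul]
    exact mul_lt_mul_of_pos_left hs' hM0
  have hMc : (M : ℂ) ≠ 0 := by exact_mod_cast hM0.ne'
  have hback : ∀ s : ℂ, (M : ℂ) * s / M = s := fun s => by field_simp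
  set h' : ι → ℂ → ℂ := fun i w => z i (w / M) - a i * exp w with hh'
  have hsum : ∀ (i : ι) (w : ℂ), a i * exp w + h' i w = z i (w / M) := by
    intro i w
    simp only [hh']
    ring
  have D : DT (M * r) ι a h' κ' := by
    refine ⟨hκ'0, hκ'1, ha, ?_, ?_, ?_⟩
    · intro i
      apply DifferentiableOn.sub
      · exact (hz i).comp (by fun_prop) hmem
      · exact (differentiable_exp.differentiableOn).const_mul _
    · intro i T
      obtain ⟨K, hK⟩ := hK i (T / M)
      refine ⟨|K|, fun w hw => ?_⟩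
      have h1 := hK (w / M) ⟨hmem w hw.1, by
        rw [him, abs_div, abs_of_pos hM0]
        exact div_le_div_of_nonneg_right hw.2 hM0.le⟩
      have h2 : (M : ℂ) * (w / M) = w := by field_simp
      rw [h2, hre] at h1
      have hw0 : 0 ≤ w.re := by
        have : M * r < w.re := hw.1
        have : 0 ≤ M * r := by positivity
        linarith
      have h3 : κ * (w.re / M) ≤ κ' * w.re := by
        calc κ * (w.re / M) = κ / M * w.re := by ring
          _ ≤ κ' * w.re := mul_le_mul_of_nonneg_right hκi hw0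
      calc ‖h' i w‖ ≤ K * Real.exp (κ * (w.re / M)) := h1
        _ ≤ |K| * Real.exp (κ' * w.re) :=
          mul_le_mul (le_abs_self K) (Real.exp_le_exp.2 h3) (Real.exp_pos _).le (abs_nonneg _)
    · intro i j hij p q hcon
      apply hind i j hij p q
      intro s hs
      have h1 := hcon _ (hmem' s hs)
      rw [hsum, hsum, hback] at h1
      exact h1
  have key := tg hS hR hJ hL D N (fun k w => C k (w / M))
    (fun k hk => EP.of_slow ((hC k hk).scale hM0)) (by
      intro w hw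
      have h1 := hrel _ (hmem w hw)
      simp only [hsum]
      exact h1)
  intro k hk s hs
  have h1 := key k hk _ (hmem' s hs)
  simp only [hback] at h1
  exact h1

end Pool.Agent.K9h26.GE
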