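import Pool.Agent.K9h26.GE.XP
import Pool.Agent.K9h76.GM.Main

set_option autoImplicit false

/-!
From functions to numbers.
-/

namespace Pool.Agent.K9h26.GE

open Complex Filter Topology Set
open scoped Cardinal
open Pool.Agent.K9h76.GM

/-- the functional theorem for a class of functions -/
def FT (G : (ℂ → ℂ) → Prop) : Prop :=
  ∀ (ι : Type) [Fintype ι] (f : ι → ℂ → ℂ), (∀ i, G (f i)) →
    (∀ i, ∀ v : ℂ, ¬ ∀ t, f i t = v) →
    (∀ i j, i ≠ j → ∀ p q : ℚ, ¬ ∀ t, f i t = p * f j t + q) →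
    ∀ (N : Finset (ι → ℕ)) (c : (ι → ℕ) → ℂ → ℂ), (∀ k ∈ N, XP (c k)) →
    (∀ t, ∑ k ∈ N, c k t * ∏ i, (Gamma (f i t))⁻¹ ^ k i = 0) →
    ∀ k ∈ N, ∀ t, c k t = 0

lemma XP.mer {f : ℂ → ℂ} (hf : XP f) : MeromorphicOn f univ := fun t _ =>
  (hf.diff.analyticAt t).meromorphicAt

lemma van_diff {f : ℂ → ℂ} (hf : Differentiable ℂ f) (h : Van univ f) : ∀ t, f t = 0 := by
  intro t
  exact ((hf.analyticAt t).frequently_zero_iff_eventually_zero.1
    (h t (mem_univ t)).frequently).self_of_nhds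

lemma van_of_zero {f : ℂ → ℂ} (h : ∀ t, f t = 0) : Van univ f := fun _ _ =>
  Eventually.of_forall h

variable {F : Type} [Field F] [Algebra F ℂ]

lemma ev_xp {𝓔 : Set (ℂ → ℂ)} (h𝓔 : ∀ g ∈ 𝓔, XP g) (q : MvPolynomial 𝓔 F) :
    XP (fun t => ev F 𝓔 t q) := by
  induction q using MvPolynomial.induction_on with
  | C a =>
    have : (fun t => ev F 𝓔 t (MvPolynomial.C a)) = fun _ => (algebraMap F ℂ a) := by
      funext t
      simp [ev]
    rw [this]
    exact XP.const _
  | add p q hp hq =>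
    have : (fun t => ev F 𝓔 t (p + q)) = fun t => ev F 𝓔 t p + ev F 𝓔 t q := by
      funext t
      rw [map_add]
    rw [this]
    exact hp.add hq
  | mul_X p g hp =>
    have : (fun t => ev F 𝓔 t (p * MvPolynomial.X g)) = fun t => ev F 𝓔 t p * g.1 t := by
      funext t
      rw [map_mul]
      simp [ev]
    rw [this]
    exact hp.mul (h𝓔 g.1 g.2)

lemma Phi_diff {𝓔 : Set (ℂ → ℂ)} (h𝓔 : ∀ g ∈ 𝓔, XP g) {n : ℕ} (f : Fin n → 𝓔)
    (P : MvPolynomial (Fin n) (MvPolynomial 𝓔 F)) : Differentiable ℂ (Phi f P) := by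
  have : Phi f P = fun t => ∑ k ∈ P.support, ev F 𝓔 t (P.coeff k) *
      ∏ i, (Gamma ((f i).1 t))⁻¹ ^ k i := funext fun t => Phi_eq f P t
  rw [this]
  apply Differentiable.fun_sum
  intro k _
  apply (ev_xp h𝓔 _).diff.mul
  apply Differentiable.fun_finsetProd
  intro i _
  exact (differentiable_one_div_Gamma.comp (h𝓔 _ (f i).2).diff).pow _

lemma Phi_van' {G : (ℂ → ℂ) → Prop} (hFT : FT G) {𝓔 : Set (ℂ → ℂ)} (h𝓔 : ∀ g ∈ 𝓔, XP g) {n : ℕ}
    (f : Fin n → 𝓔) (hG : ∀ i, G (f i).1) (hn : ∀ i, ∀ v : ℂ, ¬ ∀ t, (f i).1 t = v)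
    (hH : ∀ i j, i ≠ j → ∀ a b : ℚ, ¬ ∀ t, (f i).1 t = a * (f j).1 t + b)
    (P : MvPolynomial (Fin n) (MvPolynomial 𝓔 F)) (hP : Van univ (Phi f P)) (k : Fin n →₀ ℕ) :
    Van univ (fun t => ev F 𝓔 t (P.coeff k)) := by
  classical
  by_cases hk : k ∈ P.support
  · let cf : (Fin n →₀ ℕ) → (Fin n → ℕ) := fun k i => k i
    have hcf : ∀ k, Finsupp.equivFunOnFinite.symm (cf k) = k := fun k => by ext; simp [cf]
    have hinj : Function.Injective cf := fun a b h => by
      rw [← hcf a, ← hcf b, h]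
    have hP0 := van_diff (Phi_diff h𝓔 f P) hP
    have h1 := hFT (Fin n) (fun i => (f i).1) hG hn hH (P.support.image cf)
      (fun l t => ev F 𝓔 t (P.coeff (Finsupp.equivFunOnFinite.symm l)))
      (fun l _ => ev_xp h𝓔 _) ?_ (cf k) (Finset.mem_image_of_mem _ hk)
    · simp only [hcf] at h1
      exact van_of_zero h1
    · intro t
      have ht := hP0 t
      rw [Phi_eq] at ht
      rw [Finset.sum_image (fun k₁ _ k₂ _ h => hinj h), ← ht]
      refine Finset.sum_congr rfl fun l _ => ?_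
      rw [hcf]
  · intro p _
    refine Eventually.of_forall fun t => ?_
    change ev F 𝓔 t (P.coeff k) = 0
    rw [MvPolynomial.notMem_support_iff.1 hk, map_zero]

open scoped IntermediateField.algebraAdjoinAdjoin in
/-- off the exceptional set the values of `Γ` are algebraically independent over the field
generated by the values of the family -/
theorem algInd' {G : (ℂ → ℂ) → Prop} (hFT : FT G) {𝓔 : Set (ℂ → ℂ)} (h𝓔 : ∀ g ∈ 𝓔, XP g)
    {t : ℂ} (hE : t ∉ Exc F 𝓔 univ) {n : ℕ}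
    (f : Fin n → 𝓔) (hG : ∀ i, G (f i).1) (hn : ∀ i, ∀ v : ℂ, ¬ ∀ t, (f i).1 t = v)
    (hH : ∀ i j, i ≠ j → ∀ a b : ℚ, (f i).1 t ≠ a * (f j).1 t + b) :
    AlgebraicIndependent (vals F 𝓔 t) (fun i => Gamma ((f i).1 t)) := by
  have hH' : ∀ i j, i ≠ j → ∀ a b : ℚ, ¬ ∀ t, (f i).1 t = a * (f j).1 t + b :=
    fun i j hij a b hv => hH i j hij a b (hv t)
  set S : Set ℂ := Set.range fun g : 𝓔 => g.1 t with hS
  have key : AlgebraicIndependent (Algebra.adjoin F S)
      (fun i => (Gamma ((f i).1 t))⁻¹) := by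
    have hmem : ∀ q, ev F 𝓔 t q ∈ Algebra.adjoin F S := by
      intro q
      rw [hS, Algebra.adjoin_range_eq_range_aeval]
      exact ⟨q, rfl⟩
    let φ : MvPolynomial 𝓔 F →ₐ[F] Algebra.adjoin F S := (ev F 𝓔 t).codRestrict _ hmem
    have hφ : Function.Surjective φ := by
      rintro ⟨x, hx⟩
      have hx' := hx
      rw [hS, Algebra.adjoin_range_eq_range_aeval] at hx'
      obtain ⟨q, hq⟩ := hx'
      exact ⟨q, Subtype.ext hq⟩
    rw [algebraicIndependent_iff]
    intro p hp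
    obtain ⟨P, rfl⟩ := MvPolynomial.map_surjective φ.toRingHom hφ p
    have h1 : Phi f P t = 0 := by
      rw [Phi, ← hp, MvPolynomial.aeval_def, MvPolynomial.eval₂_map]
      rfl
    have h2 := Phi_van' hFT h𝓔 f hG hn hH' P ((Phi_iff (mem_univ t) hE f P).1 h1)
    ext k
    have h3 := (ev_iff (mem_univ t) hE _).2 (h2 k)
    rw [MvPolynomial.coeff_map, MvPolynomial.coeff_zero]
    exact h3
  have key2 : AlgebraicIndependent (vals F 𝓔 t) (fun i => (Gamma ((f i).1 t))⁻¹) :=
    key.extendScalars (IntermediateField.adjoin F S)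
  have := algInd_inv key2
  simpa only [inv_inv] using this

lemma xp_nonconst {f : ℂ → ℂ} (hf : XP f) (hn : ∀ v : ℂ, ¬ ∀ t, f t = v) : NonConst univ f := by
  intro v
  have h := hn v
  push Not at h
  obtain ⟨t, ht⟩ := h
  exact ⟨t, mem_univ t, hf.diff.analyticAt t, ht⟩

lemma pole_nonconst {f : ℂ → ℂ} (hf : MeromorphicOn f univ) (hp : HasPole univ f) :
    NonConst univ f := by
  obtain ⟨p, hp, ho⟩ := hp
  intro v
  have h1 := tendsto_cobounded_of_meromorphicOrderAt_neg ho
  have h2 : ∀ᶠ t in 𝓝[≠] p, f t ≠ v :=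
    h1.eventually (Bornology.eventually_ne_cobounded v)
  obtain ⟨t, h3, h4⟩ := (h2.and (hf p hp).eventually_analyticAt).exists
  exact ⟨t, mem_univ t, h4, h3⟩

lemma xp_noPole {f : ℂ → ℂ} (hf : XP f) : ¬ HasPole univ f := by
  rintro ⟨p, -, ho⟩
  have h1 := (hf.diff.analyticAt p).meromorphicOrderAt_nonneg
  exact absurd ho (not_lt.2 h1)

/-- the field generated by the values at `t` of the exponential polynomials of a family -/
noncomputable def xpField (F : Type) [Field F] [Algebra F ℂ] (𝓜 : Set (ℂ → ℂ)) (t : ℂ) :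
    IntermediateField F ℂ :=
  IntermediateField.adjoin F {x | ∃ g ∈ 𝓜, XP g ∧ x = g t}

lemma vals_xp {𝓜 : Set (ℂ → ℂ)} {t : ℂ} : vals F {g | g ∈ 𝓜 ∧ XP g} t = xpField F 𝓜 t := by
  unfold vals xpField
  congr 1
  ext x
  constructor
  · rintro ⟨⟨g, hg, hx⟩, rfl⟩
    exact ⟨g, hg, hx, rfl⟩
  · rintro ⟨g, hg, hx, rfl⟩
    exact ⟨⟨g, hg, hx⟩, rfl⟩

theorem numMain [Countable F] {G : (ℂ → ℂ) → Prop} (hFT : FT G) (hGX : ∀ f, G f → XP f)
    {𝓜 : Set (ℂ → ℂ)} (hcount : 𝓜.Countable) (h𝓜 : ∀ g ∈ 𝓜, MeromorphicOn g univ) :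
    ∃ S : Set ℂ, S.Countable ∧ ∀ t ∉ S, ∀ (n : ℕ) (f : Fin n → ℂ → ℂ), (∀ i, f i ∈ 𝓜) →
      (∀ i, HasPole univ (f i) ∨ (G (f i) ∧ ∀ v : ℂ, ∃ s, f i s ≠ v)) →
      (∀ i j, i ≠ j → ∀ a b : ℚ, f i t ≠ a * f j t + b) →
      AlgebraicIndependent (xpField F 𝓜 t) (fun i : {i // G (f i)} => Gamma (f i t)) ∧
      ((∀ i, G (f i)) → (n : Cardinal) + Algebra.trdeg F (IntermediateField.adjoin F
          (range fun i => f i t)) ≤
        Algebra.trdeg F (IntermediateField.adjoin F
          (range (fun i => f i t) ∪ range fun i => Gamma (f i t)))) ∧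
      (1 ≤ n → ((n + 1 : ℕ) : Cardinal) ≤ Algebra.trdeg F (IntermediateField.adjoin F
          (range (fun i => f i t) ∪ range fun i => Gamma (f i t)))) := by
  classical
  set 𝓔 : Set (ℂ → ℂ) := {g | g ∈ 𝓜 ∧ XP g} with h𝓔d
  have h𝓔 : ∀ g ∈ 𝓔, XP g := fun g hg => hg.2
  have h𝓔c : 𝓔.Countable := hcount.mono fun g hg => hg.1
  obtain ⟨S₁, hS₁, hmain⟩ := main (F := F) isOpen_univ isPreconnected_univ hcount h𝓜
  refine ⟨S₁ ∪ Exc F 𝓔 univ ∪ ⋃ g : 𝓔, {t | t ∈ univ ∧ NonConst univ g.1 ∧ IsAlgebraic F (g.1 t)},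
    ?_, ?_⟩
  · refine (hS₁.union (Exc_countable h𝓔c isOpen_univ isPreconnected_univ
      fun g hg => (h𝓔 g hg).mer)).union ?_
    have : Countable 𝓔 := h𝓔c.to_subtype
    refine countable_iUnion fun g => ?_
    by_cases hg : NonConst univ g.1
    · refine Countable.mono ?_ (preim_countable isOpen_univ isPreconnected_univ (h𝓔 _ g.2).mer hg
        (Algebraic.countable F ℂ))
      rintro t ⟨h1, -, h2⟩
      exact ⟨h1, h2⟩
    · convert countable_empty (α := ℂ)
      ext t
      simp only [mem_ofPred_eq, mem_empty_iff_false, iff_false]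
      exact fun h => hg h.2.1
  intro t htS n f hf hGP hH
  have ht1 : t ∉ S₁ := fun h => htS (Or.inl (Or.inl h))
  have hE : t ∉ Exc F 𝓔 univ := fun h => htS (Or.inl (Or.inr h))
  have hB : ∀ g ∈ 𝓔, NonConst univ g → ¬ IsAlgebraic F (g t) := fun g hg hn h =>
    htS (Or.inr (mem_iUnion_of_mem (⟨g, hg⟩ : 𝓔) ⟨mem_univ t, hn, h⟩))
  have hGE : ∀ i, G (f i) → f i ∈ 𝓔 := fun i h => ⟨hf i, hGX _ h⟩
  have hGn : ∀ i, G (f i) → ∀ v : ℂ, ¬ ∀ s, f i s = v := by
    intro i h v hcon
    rcases hGP i with h1 | ⟨-, h1⟩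
    · exact xp_noPole (hGX _ h) h1
    · obtain ⟨s, hs⟩ := h1 v
      exact hs (hcon s)
  have h1 : AlgebraicIndependent (xpField F 𝓜 t)
      (fun i : {i // G (f i)} => Gamma (f i t)) := by
    let e := Fintype.equivFin {i // G (f i)}
    have h := algInd' (F := F) hFT h𝓔 hE
      (fun k => (⟨f (e.symm k).1, hGE _ (e.symm k).2⟩ : 𝓔)) (fun k => (e.symm k).2)
      (fun k => hGn _ (e.symm k).2)
      (fun i j hij => hH _ _ fun h => hij (e.symm.injective (Subtype.ext h)))
    have hv : vals F 𝓔 t = xpField F 𝓜 t := vals_xp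
    rw [hv] at h
    have h' := h.comp e e.injective
    simpa [Function.comp_def] using h'
  set z : Fin n → ℂ := fun i => f i t with hz
  set M := IntermediateField.adjoin F (range z ∪ range fun i => Gamma (z i)) with hM
  have hzM : ∀ i, z i ∈ M := fun i => IntermediateField.subset_adjoin _ _ (Or.inl ⟨i, rfl⟩)
  have hGM : ∀ i, Gamma (z i) ∈ M := fun i =>
    IntermediateField.subset_adjoin _ _ (Or.inr ⟨i, rfl⟩)
  have hzX : ∀ i, G (f i) → z i ∈ xpField F 𝓜 t := fun i hi =>
    IntermediateField.subset_adjoin _ _ ⟨f i, hf i, hGX _ hi, rfl⟩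
  refine ⟨h1, ?_, ?_⟩
  · intro hall
    have h2 := add_le_trdeg (L := IntermediateField.adjoin F (range z)) (L' := xpField F 𝓜 t)
      (M := M) (IntermediateField.adjoin_le_iff.2 ?_) (IntermediateField.adjoin_le_iff.2 ?_) h1
      (fun i => hGM i.1)
    · have h3 : #{i // G (f i)} = n := by
        rw [Cardinal.mk_congr (Equiv.subtypeUnivEquiv hall), Cardinal.mk_fin]
      rwa [h3] at h2
    · rintro x ⟨i, rfl⟩
      exact hzX i (hall i)
    · rintro x ⟨i, rfl⟩
      exact hzM i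
  · intro hn
    obtain ⟨h2, h3, h4⟩ := hmain t (mem_univ t) ht1 n f hf hH
    have hcase : ∀ i, ¬ HasPole univ (f i) → G (f i) := fun i hi => by
      rcases hGP i with h | h
      · exact absurd h hi
      · exact h.1
    have hcase' : ∀ i, G (f i) → ¬ HasPole univ (f i) := fun i hi => xp_noPole (hGX _ hi)
    have hnc : ∀ i, NonConst univ (f i) := by
      intro i
      by_cases hi : HasPole univ (f i)
      · exact pole_nonconst (h𝓜 _ (hf i)) hi
      · exact xp_nonconst (hGX _ (hcase i hi)) (hGn i (hcase i hi))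
    by_cases hQ : ∃ i, ¬ HasPole univ (f i)
    · obtain ⟨i₀, hi₀⟩ := hQ
      set M' := IntermediateField.adjoin F
        (range z ∪ range fun i : {i // ¬ HasPole univ (f i)} => Gamma (z i)) with hM'
      have h5 : AlgebraicIndependent F (fun _ : Unit => z i₀) :=
        algebraicIndependent_unique_type_iff.2
          (hB _ (hGE _ (hcase i₀ hi₀)) (hnc i₀))
      have h6 := card_le_trdeg h5 (M := IntermediateField.adjoin F {z i₀})
        (fun _ => IntermediateField.subset_adjoin _ _ rfl)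
      have h7 := add_le_trdeg (L := IntermediateField.adjoin F {z i₀}) (L' := xpField F 𝓜 t)
        (M := M') (IntermediateField.adjoin_le_iff.2 ?_) (IntermediateField.adjoin_le_iff.2 ?_) h1
        (fun i => IntermediateField.subset_adjoin _ _ (Or.inr ⟨⟨i.1, hcase' _ i.2⟩, rfl⟩))
      · have hcardG : #{i // G (f i)} = (Nat.card {i // ¬ HasPole univ (f i)} : Cardinal) := by
          rw [Nat.cast_card]
          exact Cardinal.mk_congr (Equiv.subtypeEquivRight fun i => ⟨hcase' i, hcase i⟩)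
        have h8 : (Nat.card {i // ¬ HasPole univ (f i)} : Cardinal) + 1 ≤ Algebra.trdeg F M' := by
          rw [← hcardG]
          refine le_trans ?_ h7
          have : (1 : Cardinal) ≤ Algebra.trdeg F (IntermediateField.adjoin F {z i₀}) := by
            simpa using h6
          exact add_le_add_right this _
        have hcard : Nat.card {i // HasPole univ (f i)} +
            Nat.card {i // ¬ HasPole univ (f i)} = n := by
          rw [Nat.card_eq_fintype_card, Nat.card_eq_fintype_card, Fintype.card_subtype_compl,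
            Fintype.card_fin]
          have : Fintype.card {i // HasPole univ (f i)} ≤ n := by
            simpa using Fintype.card_subtype_le (fun i : Fin n => HasPole univ (f i))
          omega
        refine le_trans ?_ h3
        refine le_trans ?_ (add_le_add_right h8 _)
        have h9 : ((n + 1 : ℕ) : Cardinal) = (Nat.card {i // HasPole univ (f i)} : Cardinal) +
            ((Nat.card {i // ¬ HasPole univ (f i)} : Cardinal) + 1) := by
          have h10 : n + 1 = Nat.card {i // HasPole univ (f i)} +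
              (Nat.card {i // ¬ HasPole univ (f i)} + 1) := by omega
          calc ((n + 1 : ℕ) : Cardinal) = ((Nat.card {i // HasPole univ (f i)} +
              (Nat.card {i // ¬ HasPole univ (f i)} + 1) : ℕ) : Cardinal) :=
                congrArg (fun k : ℕ => (k : Cardinal)) h10
            _ = _ := by push_cast; rfl
        rw [h9]
      · intro x hx
        rw [mem_singleton_iff.1 hx]
        exact hzX i₀ (hcase i₀ hi₀)
      · intro x hx
        rw [mem_singleton_iff.1 hx]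
        exact IntermediateField.subset_adjoin _ _ (Or.inl ⟨i₀, rfl⟩)
    · push Not at hQ
      obtain ⟨h5, -⟩ := h4 hn hnc
      have h6 : Nat.card {i // ¬ HasPole univ (f i)} = 0 := by
        have : IsEmpty {i // ¬ HasPole univ (f i)} := ⟨fun i => i.2 (hQ i.1)⟩
        exact Nat.card_of_isEmpty
      rw [h6] at h5
      have h7 : n - 0 + min (0 + 1) 3 = n + 1 := by omega
      rwa [h7] at h5

end Pool.Agent.K9h26.GE
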