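import Pool.Agent.K9h26.GE.Defs
import Pool.Agent.W175.GF.Cross

set_option autoImplicit false

/-!
The change of variables `s = log τ + ζ i` and the slow factors of `1/Γ`.
-/

namespace Pool.Agent.K9h26.GE

open Complex Filter Topology
open Pool.Agent.W175.GF (Hp SlowH mn FJ S_SEP S_REG S_REGJ S_LAST Hp_re Hp_slit Hp_norm Hp_anti
  Hp_open mn_diff)

/-- `exp (ζ i)` -/
noncomputable def cis (ζ : ℝ) : ℂ := exp (ζ * I)

lemma cis_ne (ζ : ℝ) : cis ζ ≠ 0 := exp_ne_zero _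

/-- `log τ + ζ i` -/
noncomputable def sg (ζ : ℝ) (τ : ℂ) : ℂ := log τ + ζ * I

lemma exp_sg {ζ : ℝ} {τ : ℂ} (hτ : τ ≠ 0) : exp (sg ζ τ) = cis ζ * τ := by
  unfold sg cis
  rw [exp_add, exp_log hτ, mul_comm]

lemma sg_re (ζ : ℝ) (τ : ℂ) : (sg ζ τ).re = Real.log ‖τ‖ := by
  simp [sg, log_re]

lemma sg_im (ζ : ℝ) (τ : ℂ) : (sg ζ τ).im = arg τ + ζ := by
  simp [sg, log_im]

lemma exp_sg_re {ζ : ℝ} {τ : ℂ} (hτ : τ ≠ 0) : Real.exp (sg ζ τ).re = ‖τ‖ := by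
  rw [sg_re, Real.exp_log (norm_pos_iff.2 hτ)]

lemma sg_mem {ζ r : ℝ} {τ : ℂ} (hτ : Real.exp r < ‖τ‖) : sg ζ τ ∈ Us r (Real.pi + |ζ|) := by
  have h0 : 0 < ‖τ‖ := (Real.exp_pos r).trans hτ
  constructor
  · rw [sg_re]
    exact (Real.lt_log_iff_exp_lt h0).2 hτ
  · rw [sg_im]
    have h1 := abs_arg_le_pi τ
    have h2 := abs_add_le (arg τ) ζ
    linarith

lemma sg_memU {ζ r : ℝ} {τ : ℂ} (hτ : Real.exp r < ‖τ‖) : sg ζ τ ∈ U r := (sg_mem hτ).1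

lemma sg_diff (ζ : ℝ) : DifferentiableOn ℂ (sg ζ) slitPlane := by
  intro τ hτ
  unfold sg
  have : DifferentiableAt ℂ log τ := differentiableAt_log hτ
  exact (this.add_const _).differentiableWithinAt

lemma of_fan (ζ : ℝ) {r ψ ρ : ℝ}
    (hψ : |ψ| < Real.pi / 2) (_ : 0 ≤ ρ) {f : ℂ → ℂ} (hf : DifferentiableOn ℂ f (U r))
    (h : ∀ τ ∈ Hp ψ ρ, f (sg ζ τ) = 0) : ∀ s ∈ U r, f s = 0 := by
  have hc : 0 < Real.cos ψ := Real.cos_pos_of_mem_Ioo ⟨by linarith [(abs_lt.1 hψ).1], (abs_lt.1 hψ).2⟩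
  -- a real point of the fan
  obtain ⟨x, hx1, hx2⟩ : ∃ x : ℝ, ρ / Real.cos ψ + 1 < x ∧ Real.exp r < x :=
    ⟨max (ρ / Real.cos ψ + 1) (Real.exp r) + 1,
      by linarith [le_max_left (ρ / Real.cos ψ + 1) (Real.exp r)],
      by linarith [le_max_right (ρ / Real.cos ψ + 1) (Real.exp r)]⟩
  have hx0 : 0 < x := (Real.exp_pos r).trans hx2
  have hxHp : (x : ℂ) ∈ Hp ψ ρ := by
    show ρ < ((x : ℂ) * exp (-(ψ * I))).re
    rw [Hp_re (ρ := ρ)]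
    simp only [ofReal_re, ofReal_im, zero_mul, add_zero]
    have : ρ / Real.cos ψ < x := by linarith
    rwa [div_lt_iff₀ hc] at this
  -- the open set of the points `s` in a strip whose exponential is in the fan
  set V : Set ℂ := {s : ℂ | |s.im - ζ| < Real.pi / 2} ∩ {s : ℂ | ρ < (exp (s - ζ * I) * exp (-(ψ * I))).re}
    with hV
  have hVo : IsOpen V := by
    apply IsOpen.inter
    · exact isOpen_lt (by fun_prop) continuous_const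
    · exact isOpen_lt continuous_const (by fun_prop)
  have hpi := Real.pi_pos
  have hsgx : sg ζ (x : ℂ) ∈ V := by
    constructor
    · show |(sg ζ (x : ℂ)).im - ζ| < Real.pi / 2
      rw [sg_im, arg_ofReal_of_nonneg hx0.le, zero_add, sub_self, abs_zero]
      positivity
    · show ρ < (exp (sg ζ (x : ℂ) - ζ * I) * exp (-(ψ * I))).re
      have h1 : sg ζ (x : ℂ) - ζ * I = log x := by unfold sg; ring
      rw [h1, exp_log (by exact_mod_cast hx0.ne')]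
      exact hxHp
  have hsgU : sg ζ (x : ℂ) ∈ U r := by
    apply sg_memU
    rw [norm_real, Real.norm_eq_abs, abs_of_pos hx0]
    exact hx2
  refine eq_zero_of_open hf hVo hsgx hsgU ?_
  rintro s ⟨hs1, hs2⟩
  have hs1' : |s.im - ζ| < Real.pi / 2 := hs1
  have h2 : sg ζ (exp (s - ζ * I)) = s := by
    unfold sg
    have him : (s - ζ * I).im = s.im - ζ := by simp
    rw [log_exp]
    · ring
    · rw [him]
      have := (abs_lt.1 hs1').1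
      linarith
    · rw [him]
      have := (abs_lt.1 hs1').2
      linarith
  rw [← h2]
  exact h _ hs2

lemma slowH_of_slow (ζ : ℝ) {r ψ₁ ψ₂ ρ : ℝ}
    (h1 : -(Real.pi / 2) < ψ₁) (h2 : ψ₂ < Real.pi / 2) (hρ : Real.exp r ≤ ρ) {f : ℂ → ℂ}
    (hf : Slow r f) : SlowH ψ₁ ψ₂ ρ (fun τ => f (sg ζ τ)) := by
  have hρ0 : 0 ≤ ρ := le_trans (Real.exp_pos _).le hρ
  intro ψ hψ
  have hψ' : |ψ| < Real.pi / 2 := abs_lt.2 ⟨by linarith [hψ.1], by linarith [hψ.2]⟩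
  have hmem : ∀ τ ∈ Hp ψ ρ, sg ζ τ ∈ Us r (Real.pi + |ζ|) := fun τ hτ =>
    sg_mem (lt_of_le_of_lt hρ (Hp_norm hτ))
  constructor
  · exact hf.1.comp ((sg_diff ζ).mono fun τ hτ => Hp_slit hψ' hρ0 hτ) fun τ hτ => (hmem τ hτ).1
  · intro ε hε
    obtain ⟨C, hC⟩ := hf.2 (Real.pi + |ζ|) ε hε
    refine ⟨C, fun τ hτ => ?_⟩
    have h3 := hC _ (hmem τ hτ)
    simp only at h3
    rwa [exp_sg_re (slitPlane_ne_zero (Hp_slit hψ' hρ0 hτ))] at h3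

/-- the bound for the lower order part in terms of `τ` -/
lemma lower_bd {ζ κ : ℝ} {τ : ℂ} (hτ : τ ≠ 0) :
    Real.exp (κ * (sg ζ τ).re) = ‖τ‖ ^ κ := by
  rw [sg_re, Real.rpow_def_of_pos (norm_pos_iff.2 hτ), mul_comm]

/-- data for the theorem -/
structure DT (r : ℝ) (ι : Type) [Fintype ι] (a : ι → ℂ) (h : ι → ℂ → ℂ) (κ : ℝ) :
    Prop where
  hκ0 : 0 ≤ κ
  hκ1 : κ < 1
  ha : ∀ i, a i ≠ 0
  hh : ∀ i, DifferentiableOn ℂ (h i) (U r)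
  hK : ∀ i, ∀ T : ℝ, ∃ K : ℝ, ∀ s ∈ Us r T, ‖h i s‖ ≤ K * Real.exp (κ * s.re)
  hH : ∀ i j, i ≠ j → ∀ p q : ℚ,
    ¬ ∀ s ∈ U r, a i * exp s + h i s = p * (a j * exp s + h j s) + q

variable {r : ℝ} {ι : Type} [Fintype ι] {a : ι → ℂ} {h : ι → ℂ → ℂ} {κ : ℝ}

/-- slow factor on a regular fan -/
lemma slow_reg (hR : S_REG) (D : DT r ι a h κ) (ζ : ℝ) (i : ι) {ψ₁ ψ₂ ρ : ℝ}
    (h1 : -(Real.pi / 2) < ψ₁) (h2 : ψ₂ < Real.pi / 2) (hρ : Real.exp r ≤ ρ) (hρ1 : 1 ≤ ρ)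
    (hb : |arg (a i * cis ζ)| ≤ Real.pi / 2)
    (hψ : ∀ ψ ∈ Set.Ioo ψ₁ ψ₂, |arg (a i * cis ζ) + ψ| < Real.pi / 2) :
    SlowH ψ₁ ψ₂ ρ (fun τ => (Gamma (a i * exp (sg ζ τ) + h i (sg ζ τ)))⁻¹ *
      exp (mn (a i * cis ζ) τ)) := by
  have hρ0 : 0 ≤ ρ := by linarith
  have hb0 : a i * cis ζ ≠ 0 := mul_ne_zero (D.ha i) (cis_ne ζ)
  intro ψ hψ0
  have hψ' : |ψ| < Real.pi / 2 := abs_lt.2 ⟨by linarith [hψ0.1], by linarith [hψ0.2]⟩
  have hmem : ∀ τ ∈ Hp ψ ρ, sg ζ τ ∈ Us r (Real.pi + |ζ|) := fun τ hτ =>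
    sg_mem (lt_of_le_of_lt hρ (Hp_norm hτ))
  have hslit : ∀ τ ∈ Hp ψ ρ, τ ∈ slitPlane := fun τ hτ => Hp_slit hψ' hρ0 hτ
  have hsd : DifferentiableOn ℂ (sg ζ) (Hp ψ ρ) := (sg_diff ζ).mono hslit
  constructor
  · apply DifferentiableOn.mul
    · apply Complex.differentiable_one_div_Gamma.comp_differentiableOn
      apply DifferentiableOn.add
      · apply DifferentiableOn.const_mul
        exact hsd.cexp
      · exact (D.hh i).comp hsd fun τ hτ => (hmem τ hτ).1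
    · exact ((mn_diff _).mono hslit).cexp
  · intro ε hε
    obtain ⟨K, hK⟩ := D.hK i (Real.pi + |ζ|)
    obtain ⟨C, hC⟩ := hR (a i * cis ζ) ψ κ K hb0 hb hψ' (hψ ψ hψ0) D.hκ0 D.hκ1 ε hε
    refine ⟨C, fun τ hτ => ?_⟩
    have hτ0 := slitPlane_ne_zero (hslit τ hτ)
    have h3 := hC τ (Hp_anti hρ1 hτ) (h i (sg ζ τ)) (by
      have := hK _ (hmem τ hτ)
      rwa [lower_bd hτ0] at this)
    simp only
    rw [exp_sg hτ0, ← mul_assoc]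
    exact h3

end Pool.Agent.K9h26.GE
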