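import Pool.Agent.K9h26.GE.TG

set_option autoImplicit false

/-!
Elimination of a part of the functions from a relation.
-/

namespace Pool.Agent.K9h26.GE

open Complex Filter Topology

/-- eliminate the functions with the property `pr`, then the others -/
lemma split {ι : Type} [Fintype ι] (pr : ι → Prop) [DecidablePred pr] (g : ι → ℂ → ℂ)
    (c : (ι → ℕ) → ℂ → ℂ) (N : Finset (ι → ℕ)) (Ω : Set ℂ)
    (hrel : ∀ t ∈ Ω, ∑ k ∈ N, c k t * ∏ i, g i t ^ k i = 0)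
    (h1 : ∀ (N' : Finset ({i // pr i} → ℕ)) (C : ({i // pr i} → ℕ) → ℂ → ℂ),
      (∀ κ, ∃ N₁ : Finset (ι → ℕ), N₁ ⊆ N ∧
        C κ = fun t => ∑ k ∈ N₁, c k t * ∏ i : {i // ¬ pr i}, g i t ^ k i) →
      (∀ t ∈ Ω, ∑ κ ∈ N', C κ t * ∏ i, g i.1 t ^ κ i = 0) → ∀ κ ∈ N', ∀ t ∈ Ω, C κ t = 0)
    (h2 : ∀ (N' : Finset ({i // ¬ pr i} → ℕ)) (c' : ({i // ¬ pr i} → ℕ) → ℂ → ℂ),
      (∀ l ∈ N', ∃ k ∈ N, c' l = c k) →
      (∀ t ∈ Ω, ∑ l ∈ N', c' l t * ∏ i : {i // ¬ pr i}, g i t ^ l i = 0) →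
      ∀ l ∈ N', ∀ t ∈ Ω, c' l t = 0) :
    ∀ k ∈ N, ∀ t ∈ Ω, c k t = 0 := by
  classical
  let resJ : (ι → ℕ) → ({i // pr i} → ℕ) := fun k j => k j
  let resI : (ι → ℕ) → ({i // ¬ pr i} → ℕ) := fun k j => k j
  let glue : ({i // pr i} → ℕ) → ({i // ¬ pr i} → ℕ) → (ι → ℕ) :=
    fun κ l i => if h : pr i then κ ⟨i, h⟩ else l ⟨i, h⟩
  have hglue : ∀ k : ι → ℕ, glue (resJ k) (resI k) = k := by
    intro k
    funext i
    by_cases h : pr i
    · simp only [glue, resJ, dif_pos h]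
    · simp only [glue, resI, dif_neg h]
  set C : ({i // pr i} → ℕ) → ℂ → ℂ := fun κ t =>
    ∑ k ∈ N with resJ k = κ, c k t * ∏ i : {i // ¬ pr i}, g i t ^ k i with hC
  have hsplit : ∀ t, ∑ κ ∈ N.image resJ, C κ t * ∏ j : {i // pr i}, g j t ^ κ j =
      ∑ k ∈ N, c k t * ∏ i, g i t ^ k i := by
    intro t
    rw [← Finset.sum_fiberwise_of_maps_to (g := resJ) (t := N.image resJ)
      (fun k hk => Finset.mem_image_of_mem _ hk)]
    refine Finset.sum_congr rfl fun κ _ => ?_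
    rw [hC]
    simp only
    rw [Finset.sum_mul]
    refine Finset.sum_congr rfl fun k hk => ?_
    have hk2 : resJ k = κ := (Finset.mem_filter.1 hk).2
    rw [← Fintype.prod_subtype_mul_prod_subtype pr fun i => g i t ^ k i]
    have : ∏ j : {i // pr i}, g j t ^ κ j = ∏ j : {i // pr i}, g j t ^ k j := by
      rw [← hk2]
    rw [this]
    ring
  have hCz := h1 (N.image resJ) C (fun κ => ⟨N.filter fun k => resJ k = κ, Finset.filter_subset _ _,
    rfl⟩) (fun t ht => by rw [hsplit t]; exact hrel t ht)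
  intro k hk t ht
  have h3 := h2 ((N.filter fun k' => resJ k' = resJ k).image resI) (fun l => c (glue (resJ k) l))
    ?_ ?_ (resI k) (Finset.mem_image_of_mem _ (Finset.mem_filter.2 ⟨hk, rfl⟩)) t ht
  · simpa only [hglue] using h3
  · intro l hl
    obtain ⟨k', hk', rfl⟩ := Finset.mem_image.1 hl
    obtain ⟨h4, h5⟩ := Finset.mem_filter.1 hk'
    refine ⟨k', h4, ?_⟩
    rw [← h5, hglue]
  · intro s hs
    have h4 := hCz (resJ k) (Finset.mem_image_of_mem _ hk) s hs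
    rw [Finset.sum_image]
    · rw [hC] at h4
      simp only at h4
      rw [← h4]
      refine Finset.sum_congr rfl fun k' hk' => ?_
      have h5 := (Finset.mem_filter.1 hk').2
      rw [← h5, hglue]
    · intro k₁ hk₁ k₂ hk₂ h12
      have h5 := (Finset.mem_filter.1 hk₁).2
      have h6 := (Finset.mem_filter.1 hk₂).2
      rw [← hglue k₁, ← hglue k₂, h5, h6, h12]

/-- a relation without functions -/
lemma split_empty {ι : Type} [Fintype ι] [IsEmpty ι] (g : ι → ℂ → ℂ)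
    (c : (ι → ℕ) → ℂ → ℂ) (N : Finset (ι → ℕ)) (Ω : Set ℂ)
    (hrel : ∀ t ∈ Ω, ∑ k ∈ N, c k t * ∏ i, g i t ^ k i = 0) :
    ∀ k ∈ N, ∀ t ∈ Ω, c k t = 0 := by
  intro k hk t ht
  have hN : N = {k} := by
    ext k'
    simp only [Finset.mem_singleton]
    constructor
    · intro _; exact Subsingleton.elim _ _
    · intro h'; rw [h']; exact hk
  have := hrel t ht
  rw [hN] at this
  simpa using this

end Pool.Agent.K9h26.GE
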