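import Pool.Agent.K9h26.GE.Cross
import Pool.Agent.W175.GF.Step
import Pool.Agent.W505.GF.Good

set_option autoImplicit false

/-!
The induction step in a fixed direction.
-/

namespace Pool.Agent.K9h26.GE

open Complex Filter Topology
open Pool.Agent.W175.GF (Hp SlowH mn FJ S_SEP S_REG S_REGJ S_LAST Hp_re Hp_slit Hp_norm Hp_anti
  Hp_open mn_diff kap mn_eq Dir exists_fan_neg exists_fan_pos sepm FJ_id gam Tw gam_tendsto)

variable {r : ℝ} {ι : Type} [Fintype ι] {a : ι → ℂ} {h : ι → ℂ → ℂ} {κ : ℝ}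

/-- linear independence over exponential polynomials -/
def LI (r : ℝ) (a : ι → ℂ) (h : ι → ℂ → ℂ) (N : Finset (ι → ℕ)) : Prop :=
  ∀ c : (ι → ℕ) → ℂ → ℂ, (∀ k ∈ N, EP r (c k)) →
    (∀ s ∈ U r, ∑ k ∈ N, c k s * ∏ i, (Gamma (a i * exp s + h i s))⁻¹ ^ k i = 0) →
    ∀ k ∈ N, ∀ s ∈ U r, c k s = 0

lemma allnz {N : Finset (ι → ℕ)} (IH : ∀ N' : Finset (ι → ℕ), N'.card < N.card → LI r a h N')
    (c : (ι → ℕ) → ℂ → ℂ) (hc : ∀ k ∈ N, EP r (c k))
    (hrel : ∀ s ∈ U r, ∑ k ∈ N, c k s * ∏ i, (Gamma (a i * exp s + h i s))⁻¹ ^ k i = 0)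
    (hex : ∃ k ∈ N, ¬ ∀ s ∈ U r, c k s = 0) : ∀ k ∈ N, ¬ ∀ s ∈ U r, c k s = 0 := by
  classical
  intro k' hk' hz
  obtain ⟨k, hk, hne⟩ := hex
  have hkk : k ≠ k' := by rintro rfl; exact hne hz
  apply hne
  apply IH (N.erase k') (Finset.card_erase_lt_of_mem hk') c
    (fun k hk => hc k (Finset.mem_of_mem_erase hk)) ?_ k (Finset.mem_erase.2 ⟨hkk, hk⟩)
  intro s hs
  have h1 := hrel s hs
  rw [← Finset.add_sum_erase _ _ hk', hz s hs, zero_mul, zero_add] at h1
  exact h1

lemma zd (D : DT r ι a h κ) (i : ι) :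
    DifferentiableOn ℂ (fun s => a i * exp s + h i s) (U r) := by
  apply DifferentiableOn.add
  · apply DifferentiableOn.const_mul
    exact differentiable_exp.differentiableOn
  · exact D.hh i

/-- far out in the direction `ζ` the exponentials are small -/
lemma small_exp (D : DT r ι a h κ) (ζ : ℝ) (i : ι) {β : ℝ} (hβ : 0 < β)
    (hb : a i * cis ζ = β * I) : ∃ s : ℂ, s ∈ U r ∧
      ‖exp (2 * Real.pi * I * (a i * exp s + h i s))‖ < 1 := by
  obtain ⟨K, hK⟩ := D.hK i |ζ|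
  obtain ⟨C, hC⟩ := exp_kappa D.hκ0 D.hκ1 K (β / 2) (by positivity)
  set x : ℝ := max (r + 1) (Real.log (2 * |C| / β + 1)) with hx
  have hx1 : r < x := by
    have := le_max_left (r + 1) (Real.log (2 * |C| / β + 1))
    linarith
  have hx2 : 2 * |C| / β + 1 ≤ Real.exp x := by
    have h1 : Real.log (2 * |C| / β + 1) ≤ x := le_max_right _ _
    exact (Real.log_le_iff_le_exp (by positivity)).1 h1
  have hre : ((x : ℂ) + ζ * I).re = x := by simp
  have him : ((x : ℂ) + ζ * I).im = ζ := by simp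
  have hmem : (x : ℂ) + ζ * I ∈ Us r |ζ| := ⟨by rw [hre]; exact hx1, by rw [him]⟩
  refine ⟨(x : ℂ) + ζ * I, hmem.1, ?_⟩
  rw [norm_exp, Real.exp_lt_one_iff]
  have h2 := hK _ hmem
  rw [hre] at h2
  have h3 : a i * exp ((x : ℂ) + ζ * I) = ((β * Real.exp x : ℝ) : ℂ) * I := by
    rw [exp_add]
    have : exp ((ζ : ℂ) * I) = cis ζ := rfl
    rw [this, mul_comm (exp (x : ℂ)), ← mul_assoc, hb]
    push_cast
    ring
  rw [h3]
  have h4 : ∀ (y : ℝ) (w : ℂ), (2 * Real.pi * I * ((y : ℂ) * I + w)).re =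
      2 * Real.pi * (-y - w.im) := by
    intro y w
    simp [mul_re, mul_im]
    ring
  rw [h4]
  have h5 : -(h i (x + ζ * I)).im ≤ K * Real.exp (κ * x) := by
    have h6 := abs_im_le_norm (h i (x + ζ * I))
    have h7 := neg_le_abs (h i (x + ζ * I)).im
    linarith
  have h6 := hC x
  have h7 : |C| < β / 2 * Real.exp x := by
    have h8 : 2 * |C| / β < Real.exp x := by linarith
    rw [div_lt_iff₀ hβ] at h8
    linarith
  have h8 := le_abs_self C
  have h10 : -(β * Real.exp x) - (h i (x + ζ * I)).im < 0 := by linarith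
  nlinarith [Real.pi_pos]

lemma gam_slow (D : DT r ι a h κ) (J : Finset ι) (β : ι → ℝ) (k : ι → ℕ) (u : ℂ) :
    Slow r (gam J β h k u) := by
  unfold gam
  apply Slow.prod
  intro i _
  apply Slow.pow
  apply Slow.sub (Slow.const r 1)
  refine ((eta_slow D i).mul (Slow.const r (exp (-(2 * Real.pi * β i * u))))).congr fun s _ => ?_
  rw [← exp_add]
  exact congrArg exp (by ring)

/-- a good point -/
lemma good {J : Type} [Fintype J] (r : ℝ) (β : J → ℝ) (h : J → ℂ → ℂ) (j : J)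
    (hh : ∀ i, DifferentiableOn ℂ (h i) (U r))
    (hH : ∀ i, i ≠ j → ∀ p q : ℚ, ¬ (β i = p * β j ∧ ∀ s ∈ U r, h i s = p * h j s + q)) :
    ∃ s ∈ U r, ∀ i, i ≠ j → ∀ p q : ℚ, ¬ (β i = p * β j ∧ h i s = p * h j s + q) := by
  classical
  by_contra hno
  push Not at hno
  have hsub : U r ⊆ ⋃ (i : J) (p : ℚ) (q : ℚ),
      {s | s ∈ U r ∧ (i ≠ j ∧ β i = p * β j) ∧ h i s - (p * h j s + q) = 0} := by
    intro s hs
    obtain ⟨i, hij, p, q, h1, h2⟩ := hno s hs
    simp only [Set.mem_iUnion]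
    refine ⟨i, p, q, hs, ⟨hij, h1⟩, ?_⟩
    rw [h2, sub_self]
  have hcount : (⋃ (i : J) (p : ℚ) (q : ℚ),
      {s | s ∈ U r ∧ (i ≠ j ∧ β i = p * β j) ∧ h i s - (p * h j s + q) = 0}).Countable := by
    have := Finite.to_countable (α := J)
    refine Set.countable_iUnion fun i => Set.countable_iUnion fun p =>
      Set.countable_iUnion fun q => ?_
    by_cases hij : i ≠ j ∧ β i = p * β j
    · refine Set.Countable.mono (s₂ := {s | s ∈ U r ∧ h i s - (p * h j s + q) = 0})
        (fun s hs => ⟨hs.1, hs.2.2⟩)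
        (Pool.Agent.W505.GF.countable_zeros (g := fun s => h i s - (p * h j s + q)) (U_open r)
        (U_preconnected r) ?_ ?_)
      · exact (hh i).sub (((hh j).const_mul _).add_const _)
      · intro hz
        exact hH i hij.1 p q ⟨hij.2, fun s hs => sub_eq_zero.mp (hz s hs)⟩
    · convert Set.countable_empty
      ext s
      simp only [Set.mem_empty_iff_false, iff_false]
      exact fun hs => hij hs.2.1
  have hU : (U r).Countable := hcount.mono hsub
  exact ((U_open r).measure_pos MeasureTheory.volume (U_nonempty r)).ne' (hU.measure_zero _)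

lemma prod_zero_U {α : Type} (S : Finset α) (f : α → ℂ → ℂ) (k : α → ℕ)
    (hf : ∀ i ∈ S, DifferentiableOn ℂ (f i) (U r)) (h0 : ∀ s ∈ U r, ∏ i ∈ S, f i s ^ k i = 0) :
    ∃ i ∈ S, ∀ s ∈ U r, f i s = 0 := by
  classical
  induction S using Finset.induction_on with
  | empty =>
    obtain ⟨s, hs⟩ := U_nonempty r
    have := h0 s hs
    simp at this
  | insert i S hi ih =>
    have h1 : ∀ s ∈ U r, f i s ^ k i * ∏ j ∈ S, f j s ^ k j = 0 := by
      intro s hs
      have h2 := h0 s hs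
      rw [Finset.prod_insert hi] at h2
      exact h2
    rcases mul_zero_U ((hf i (Finset.mem_insert_self i S)).pow _) (DifferentiableOn.fun_finsetProd
      fun j hj => (hf j (Finset.mem_insert_of_mem hj)).pow _) h1 with h2 | h2
    · exact ⟨i, Finset.mem_insert_self i S, fun s hs => by
        have h3 := h2 s hs
        by_contra hne
        exact pow_ne_zero _ hne h3⟩
    · obtain ⟨j, hj, h3⟩ := ih (fun j hj => hf j (Finset.mem_insert_of_mem hj)) h2
      exact ⟨j, Finset.mem_insert_of_mem hj, h3⟩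

/-- the step in a fixed direction -/
lemma dirstep (hS : S_SEP) (hR : S_REG) (hJ : S_REGJ) (hL : S_LAST)
    (D : DT r ι a h κ) (ζ : ℝ)
    (hdir : ∀ i, Dir (a i * cis ζ)) (N : Finset (ι → ℕ))
    (IH : ∀ N' : Finset (ι → ℕ), N'.card < N.card → LI r a h N')
    (k₀ k₁ : ι → ℕ) (hk₀ : k₀ ∈ N) (hk₁ : k₁ ∈ N) (j : ι) (hj : k₀ j ≠ k₁ j)
    (hre : (a j * cis ζ).re = 0) : LI r a h N := by
  classical
  intro c hc hrel
  by_contra hcon
  push Not at hcon
  have hex : ∃ k ∈ N, ¬ ∀ s ∈ U r, c k s = 0 := by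
    obtain ⟨k, hk, s, hs, hne⟩ := hcon
    exact ⟨k, hk, fun hz => hne (hz s hs)⟩
  have hall := fun c' hc' hrel' hex' => allnz (a := a) (h := h) (r := r) (N := N) IH c' hc'
    hrel' hex'
  obtain ⟨p, ω, R, hR1, hrel2⟩ := homog hS hR D ζ hdir N c hc hrel k₀ hk₀
    (hall c hc hrel hex k₀ hk₀) hall
  have hζm : cis ζ ≠ 0 := cis_ne ζ
  set J : Finset ι := Finset.univ.filter fun i => (a i * cis ζ).re = 0 with hJd
  have hJm : ∀ i, i ∈ J ↔ (a i * cis ζ).re = 0 := by intro i; simp [hJd]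
  set β : ι → ℝ := fun i => (a i * cis ζ).im with hβ
  have hJb : ∀ i ∈ J, a i * cis ζ = β i * I := by
    intro i hi
    apply Complex.ext
    · simp only [hβ, mul_re (_ : ℂ) I, ofReal_re, I_re, mul_zero, ofReal_im, I_im, mul_one, sub_self]
      exact (hJm i).1 hi
    · rw [mul_im (_ : ℂ) I]
      simp only [hβ, ofReal_re, I_re, mul_zero, ofReal_im, I_im, mul_one, add_zero]
  have hJβ : ∀ i ∈ J, 0 < β i := by
    intro i hi
    rcases hdir i with h1 | h1
    · exact absurd ((hJm i).1 hi) (ne_of_gt h1)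
    · exact h1.2
  have hjJ : j ∈ J := (hJm j).2 hre
  obtain ⟨M, hM⟩ : ∃ M : ℕ, ∀ k ∈ N, ∀ i, k i ≤ M := by
    refine ⟨∑ k ∈ N, ∑ i, k i, fun k hk i => ?_⟩
    calc k i ≤ ∑ i, k i := Finset.single_le_sum (fun _ _ => Nat.zero_le _) (Finset.mem_univ i)
      _ ≤ ∑ k ∈ N, ∑ i, k i := Finset.single_le_sum (f := fun k : ι → ℕ => ∑ i, k i)
          (fun _ _ => Nat.zero_le _) hk
  have hk10 : k₁ ∈ N.erase k₀ := Finset.mem_erase.2 ⟨fun h1 => hj (by rw [h1]), hk₁⟩
  -- the bracket vanishes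
  have hbr : ∀ u₁ u₂ : ℂ, ∀ s ∈ U r,
      gam J β h k₁ u₁ s * gam J β h k₀ u₂ s - gam J β h k₁ u₂ s * gam J β h k₀ u₁ s = 0 := by
    intro u₁ u₂
    have h1 := cross hS hR hJ D ζ hdir N p ω R (fun k hk => (hR1 k hk).1)
      (fun k hk => (hR1 k hk).2.2.1) (fun k hk => (hR1 k hk).2.2.2) hrel2 J hJm M hM k₀ u₁ u₂
    set c'' : (ι → ℕ) → ℂ → ℂ := fun k s => R k s *
      (gam J β h k u₁ s * gam J β h k₀ u₂ s - gam J β h k u₂ s * gam J β h k₀ u₁ s) *
      exp (ω k * exp s) *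
      ∏ i ∈ J, (1 - exp (2 * Real.pi * I * (a i * exp s + h i s))) ^ (M - k i) with hc''
    have h2 := IH (N.erase k₀) (Finset.card_erase_lt_of_mem hk₀) c'' (by
      intro k hk
      have hkN := Finset.mem_of_mem_erase hk
      have e1 : EP r (R k) := EP.of_slow (hR1 k hkN).1
      have e2 : EP r (fun s => gam J β h k u₁ s * gam J β h k₀ u₂ s -
          gam J β h k u₂ s * gam J β h k₀ u₁ s) := EP.of_slow
        (((gam_slow D J β k u₁).mul (gam_slow D J β k₀ u₂)).sub
        ((gam_slow D J β k u₂).mul (gam_slow D J β k₀ u₁)))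
      have e3 : EP r (fun s => exp (ω k * exp s)) :=
        (EP.single (Slow.const r 1) (ω k)).congr fun s _ => by rw [one_mul]
      have e4 : EP r (fun s => ∏ i ∈ J, (1 - exp (2 * Real.pi * I *
          (a i * exp s + h i s))) ^ (M - k i)) := by
        apply EP.prod
        intro i _
        apply EP.pow
        exact EP.sub (EP.const 1) (EP.exp_lower D.hκ0 D.hκ1 (a i) (D.hh i) (D.hK i) _)
      exact ((e1.mul e2).mul e3).mul e4) (by
      intro s hs
      have h3 := h1 s hs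
      rw [← Finset.add_sum_erase _ _ hk₀] at h3
      have h4 : gam J β h k₀ u₁ s * gam J β h k₀ u₂ s - gam J β h k₀ u₂ s * gam J β h k₀ u₁ s = 0 := by
        ring
      rw [h4, mul_zero, zero_mul, zero_mul, zero_mul, zero_add] at h3
      exact h3) k₁ hk10
    have h3 : ∀ s ∈ U r, (R k₁ s * ∏ i ∈ J, (1 - exp (2 * Real.pi * I *
        (a i * exp s + h i s))) ^ (M - k₁ i)) *
        (gam J β h k₁ u₁ s * gam J β h k₀ u₂ s - gam J β h k₁ u₂ s * gam J β h k₀ u₁ s) = 0 := by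
      intro s hs
      have h4 := h2 s hs
      simp only [hc''] at h4
      have h5 : exp (ω k₁ * exp s) ≠ 0 := exp_ne_zero _
      apply (mul_eq_zero.1 (?_ : _ * exp (ω k₁ * exp s) = 0)).resolve_right h5
      rw [← h4]
      ring
    have hEd : ∀ i ∈ J, DifferentiableOn ℂ (fun s => 1 - exp (2 * Real.pi * I *
        (a i * exp s + h i s))) (U r) := fun i _ => (((zd D i).const_mul _).cexp).const_sub _
    have hPd : DifferentiableOn ℂ (fun s => ∏ i ∈ J, (1 - exp (2 * Real.pi * I *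
        (a i * exp s + h i s))) ^ (M - k₁ i)) (U r) :=
      DifferentiableOn.fun_finsetProd fun i hi => (hEd i hi).pow _
    rcases mul_zero_U (((hR1 k₁ hk₁).1.1).mul hPd) (((gam_slow D J β k₁ u₁).mul
      (gam_slow D J β k₀ u₂)).sub ((gam_slow D J β k₁ u₂).mul (gam_slow D J β k₀ u₁))).1 h3
      with h4 | h4
    · exfalso
      rcases mul_zero_U (hR1 k₁ hk₁).1.1 hPd h4 with h5 | h5
      · exact (hR1 k₁ hk₁).2.1 h5
      · obtain ⟨i, hi, h6⟩ := prod_zero_U J _ _ hEd h5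
        obtain ⟨x, hx1, hx2⟩ := small_exp D ζ i (hJβ i hi) (hJb i hi)
        have h7 := h6 _ hx1
        have h8 : exp (2 * Real.pi * I * (a i * exp x + h i x)) = 1 := by
          linear_combination -h7
        rw [h8, norm_one] at hx2
        exact lt_irrefl _ hx2
    · exact h4
  -- let `u₂` tend to infinity
  have hgeq : ∀ u : ℂ, ∀ s ∈ U r, gam J β h k₁ u s = gam J β h k₀ u s := by
    intro u s hs
    have t1 : Tendsto (fun X : ℝ => gam J β h k₁ u s * gam J β h k₀ (X : ℂ) s -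
        gam J β h k₁ (X : ℂ) s * gam J β h k₀ u s) atTop
        (𝓝 (gam J β h k₁ u s * 1 - 1 * gam J β h k₀ u s)) :=
      ((gam_tendsto J β hJβ h k₀ s).const_mul _).sub ((gam_tendsto J β hJβ h k₁ s).mul_const _)
    have t2 : Tendsto (fun X : ℝ => gam J β h k₁ u s * gam J β h k₀ (X : ℂ) s -
        gam J β h k₁ (X : ℂ) s * gam J β h k₀ u s) atTop (𝓝 0) := by
      have : (fun X : ℝ => gam J β h k₁ u s * gam J β h k₀ (X : ℂ) s -
        gam J β h k₁ (X : ℂ) s * gam J β h k₀ u s) = fun _ => 0 := by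
        funext X
        exact hbr u X s hs
      rw [this]
      exact tendsto_const_nhds
    have := tendsto_nhds_unique t1 t2
    linear_combination this
  -- a good point
  obtain ⟨s, hs, hgood⟩ := good (J := {i // i ∈ J}) r (fun i => β i) (fun i => h i) ⟨j, hjJ⟩
    (fun i => D.hh i) (by
      rintro ⟨i, hi⟩ hne p' q ⟨hp', hq⟩
      have hij : i ≠ j := fun h1 => hne (Subtype.ext h1)
      apply D.hH i j hij p' q
      intro s hs
      have h1 := hq s hs
      simp only at h1 hp'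
      have h2 : a i = p' * a j := by
        apply mul_right_cancel₀ hζm
        rw [hJb i hi, mul_assoc, hJb j hjJ, hp']
        push_cast
        ring
      rw [h1, h2]
      ring)
  have hfin := hL {i // i ∈ J} (fun i => β i) (fun i => h i s) ⟨j, hjJ⟩ (fun i => k₀ i)
    (fun i => k₁ i) (fun i => hJβ i i.2) hgood (by
      intro u
      have h1 := hgeq u s hs
      unfold gam at h1
      rw [← Finset.prod_coe_sort J, ← Finset.prod_coe_sort J] at h1
      exact h1.symm)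
  exact hj hfin

end Pool.Agent.K9h26.GE
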