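import Pool.Agent.K9h26.GE.LT
import Pool.Agent.K9h26.GE.Cls

set_option autoImplicit false

/-!
Exponential polynomials.
-/

namespace Pool.Agent.K9h26.GE

open Complex Filter Topology
open Pool.Agent.W175.GF (SE S_RG ES)

/-- exponential polynomials such that the coefficients of the nonzero frequencies of maximal
absolute value are constants -/
def Good (f : ℂ → ℂ) : Prop :=
  ∃ (W : Finset ℂ) (p : ℂ → Polynomial ℂ), (∀ t, f t = ∑ ω ∈ W, (p ω).eval t * exp (ω * t)) ∧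
    ∀ ω ∈ W, ω ≠ 0 → (∀ ν ∈ W, ‖ν‖ ≤ ‖ω‖) → ∃ a : ℂ, a ≠ 0 ∧ p ω = Polynomial.C a

private def PS (g : ℂ → ℂ) : Prop := ∃ p : Polynomial ℂ, g = fun t => p.eval t

lemma XP_iff {f : ℂ → ℂ} : XP f ↔ ES Set.univ PS (fun ω t => exp (ω * t)) f := by
  constructor
  · rintro ⟨W, p, h⟩
    exact ⟨W, fun ω t => (p ω).eval t, fun ω _ => ⟨p ω, rfl⟩, fun t _ => h t⟩
  · rintro ⟨W, R, h1, h2⟩
    choose! p hp using h1
    refine ⟨W, p, fun t => ?_⟩
    rw [h2 t (Set.mem_univ _)]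
    refine Finset.sum_congr rfl fun ω hω => ?_
    rw [hp ω hω]

private lemma q0 : PS (fun _ => 0) := ⟨0, by simp⟩
private lemma qa : ∀ f g : ℂ → ℂ, PS f → PS g → PS (fun y => f y + g y) := by
  rintro _ _ ⟨p, rfl⟩ ⟨q, rfl⟩
  exact ⟨p + q, by simp⟩
private lemma qm : ∀ f g : ℂ → ℂ, PS f → PS g → PS (fun y => f y * g y) := by
  rintro _ _ ⟨p, rfl⟩ ⟨q, rfl⟩
  exact ⟨p * q, by simp⟩

lemma XP.single (p : Polynomial ℂ) (ω : ℂ) : XP (fun t => p.eval t * exp (ω * t)) :=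
  ⟨{ω}, fun _ => p, fun t => by simp⟩

lemma XP.const (a : ℂ) : XP (fun _ => a) :=
  ⟨{0}, fun _ => Polynomial.C a, fun t => by simp⟩

lemma XP.add {f g : ℂ → ℂ} (hf : XP f) (hg : XP g) : XP (fun t => f t + g t) :=
  XP_iff.2 (Pool.Agent.W175.GF.ES.add q0 qa (XP_iff.1 hf) (XP_iff.1 hg))

lemma XP.mul {f g : ℂ → ℂ} (hf : XP f) (hg : XP g) : XP (fun t => f t * g t) :=
  XP_iff.2 (Pool.Agent.W175.GF.ES.mul q0 qa qm (fun a b y => by rw [add_mul, exp_add])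
    (XP_iff.1 hf) (XP_iff.1 hg))

lemma XP.sum {α : Type} (A : Finset α) (f : α → ℂ → ℂ) (hf : ∀ a ∈ A, XP (f a)) :
    XP (fun t => ∑ a ∈ A, f a t) :=
  XP_iff.2 (Pool.Agent.W175.GF.ES.sum q0 qa A f fun a ha => XP_iff.1 (hf a ha))

lemma XP.neg_arg {f : ℂ → ℂ} (hf : XP f) : XP (fun t => f (-t)) := by
  obtain ⟨W, p, h⟩ := hf
  have h1 : XP (fun t => ∑ ω ∈ W, ((p ω).comp (-Polynomial.X)).eval t * exp (-ω * t)) :=
    XP.sum _ _ fun ω _ => XP.single _ _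
  have h2 : (fun t => ∑ ω ∈ W, ((p ω).comp (-Polynomial.X)).eval t * exp (-ω * t)) =
      fun t => f (-t) := by
    funext t
    rw [h]
    refine Finset.sum_congr rfl fun ω _ => ?_
    simp
  rwa [h2] at h1

lemma XP.diff {f : ℂ → ℂ} (hf : XP f) : Differentiable ℂ f := by
  obtain ⟨W, p, h⟩ := hf
  have h1 : Differentiable ℂ (fun t => ∑ ω ∈ W, (p ω).eval t * exp (ω * t)) := by
    apply Differentiable.fun_sum
    intro ω _
    exact (p ω).differentiable.mul (by fun_prop)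
  have h2 : f = fun t => ∑ ω ∈ W, (p ω).eval t * exp (ω * t) := funext h
  rwa [h2]

lemma Good.xp {f : ℂ → ℂ} (hf : Good f) : XP f := by
  obtain ⟨W, p, h, -⟩ := hf
  exact ⟨W, p, h⟩

lemma XP.mul_arg {f : ℂ → ℂ} (hf : XP f) (u : ℂ) : XP (fun t => f (u * t)) := by
  obtain ⟨W, p, h⟩ := hf
  have h1 : XP (fun t => ∑ ω ∈ W, ((p ω).comp (Polynomial.C u * Polynomial.X)).eval t *
      exp (ω * u * t)) := XP.sum _ _ fun ω _ => XP.single _ _
  have h2 : (fun t => ∑ ω ∈ W, ((p ω).comp (Polynomial.C u * Polynomial.X)).eval t *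
      exp (ω * u * t)) = fun t => f (u * t) := by
    funext t
    rw [h]
    refine Finset.sum_congr rfl fun ω _ => ?_
    rw [Polynomial.eval_comp, Polynomial.eval_mul, Polynomial.eval_C, Polynomial.eval_X, mul_assoc]
  rwa [h2] at h1

lemma poly_bd (q : Polynomial ℂ) :
    ∃ K : ℝ, 0 ≤ K ∧ ∀ x : ℂ, 1 ≤ ‖x‖ → ‖q.eval x‖ ≤ K * ‖x‖ ^ q.natDegree := by
  refine ⟨∑ i ∈ Finset.range (q.natDegree + 1), ‖q.coeff i‖,
    Finset.sum_nonneg fun _ _ => norm_nonneg _, fun x hx => ?_⟩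
  rw [Polynomial.eval_eq_sum_range, Finset.sum_mul]
  refine (norm_sum_le _ _).trans (Finset.sum_le_sum fun i hi => ?_)
  rw [norm_mul, norm_pow]
  refine mul_le_mul_of_nonneg_left (pow_le_pow_right₀ hx ?_) (norm_nonneg _)
  have := Finset.mem_range.1 hi
  omega

/-- growth of a term of an exponential polynomial -/
lemma term_bd (q : Polynomial ℂ) (ω : ℂ) {μ : ℝ} (hμ : ω.re < μ) (T : ℝ) :
    ∃ K : ℝ, ∀ s ∈ Us 1 T, ‖q.eval s * exp (ω * s)‖ ≤ K * Real.exp (μ * s.re) := by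
  obtain ⟨K, hK0, hK⟩ := poly_bd q
  set d := q.natDegree with hd
  set δ : ℝ := μ - ω.re with hδ
  have hδ0 : 0 < δ := by rw [hδ]; linarith
  refine ⟨K * (1 + |T|) ^ d * (d.factorial / δ ^ d) * Real.exp (|ω.im| * |T|), fun s hs => ?_⟩
  have hx : 1 < s.re := hs.1
  have hT : |s.im| ≤ |T| := hs.2.trans (le_abs_self T)
  have hn1 : 1 ≤ ‖s‖ := by
    have := re_le_norm s
    linarith
  have hn2 : ‖s‖ ≤ (1 + |T|) * s.re := by
    have h1 := norm_le_abs_re_add_abs_im s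
    have h2 : |s.re| = s.re := abs_of_pos (by linarith)
    have h3 := abs_nonneg T
    rw [h2] at h1
    nlinarith
  have h1 : ‖q.eval s‖ ≤ K * ((1 + |T|) * s.re) ^ d :=
    (hK s hn1).trans (mul_le_mul_of_nonneg_left (pow_le_pow_left₀ (norm_nonneg _) hn2 d) hK0)
  have h2 : s.re ^ d ≤ d.factorial / δ ^ d * Real.exp (δ * s.re) := by
    have h3 := Real.pow_div_factorial_le_exp (δ * s.re) (by positivity) d
    have hf : (0 : ℝ) < d.factorial := by exact_mod_cast d.factorial_pos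
    rw [div_le_iff₀ hf, mul_pow] at h3
    rw [div_mul_eq_mul_div, le_div_iff₀ (by positivity)]
    linarith
  have h3 : ‖exp (ω * s)‖ ≤ Real.exp (ω.re * s.re) * Real.exp (|ω.im| * |T|) := by
    rw [norm_exp, ← Real.exp_add]
    apply Real.exp_le_exp.2
    rw [mul_re]
    have h4 : -(ω.im * s.im) ≤ |ω.im| * |T| := by
      have h5 := neg_abs_le (ω.im * s.im)
      rw [abs_mul] at h5
      have h6 := mul_le_mul_of_nonneg_left hT (abs_nonneg ω.im)
      linarith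
    linarith
  rw [norm_mul]
  have hE : Real.exp (μ * s.re) = Real.exp (δ * s.re) * Real.exp (ω.re * s.re) := by
    rw [← Real.exp_add]; congr 1; rw [hδ]; ring
  calc ‖q.eval s‖ * ‖exp (ω * s)‖
      ≤ (K * ((1 + |T|) * s.re) ^ d) * (Real.exp (ω.re * s.re) * Real.exp (|ω.im| * |T|)) :=
        mul_le_mul h1 h3 (norm_nonneg _) (by positivity)
    _ = K * (1 + |T|) ^ d * s.re ^ d * (Real.exp (ω.re * s.re) * Real.exp (|ω.im| * |T|)) := by
        rw [mul_pow]; ring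
    _ ≤ K * (1 + |T|) ^ d * (d.factorial / δ ^ d * Real.exp (δ * s.re)) *
        (Real.exp (ω.re * s.re) * Real.exp (|ω.im| * |T|)) := by
        apply mul_le_mul_of_nonneg_right _ (by positivity)
        exact mul_le_mul_of_nonneg_left h2 (by positivity)
    _ = _ := by rw [hE]; ring

/-- functions of exponential growth are very slow -/
lemma VSlow.of_exp {r : ℝ} (hr : 0 ≤ r) {f : ℂ → ℂ} (hf : DifferentiableOn ℂ f (U r))
    (h : ∀ T : ℝ, ∃ C D : ℝ, ∀ s ∈ Us r T, ‖f s‖ ≤ C * Real.exp (D * s.re)) : VSlow r f := by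
  intro M hM
  refine ⟨hf, fun T ε hε => ?_⟩
  obtain ⟨C, D, hC⟩ := h T
  obtain ⟨C', hC'⟩ := exp_kappa' (κ := M / 2) hM (by positivity) (by linarith) (|D| / (M / 2)) ε hε
  refine ⟨|C| * Real.exp C', fun s hs => ?_⟩
  have hx : 0 ≤ s.re := hr.trans hs.1.le
  have h1 : D * s.re ≤ |D| / (M / 2) * Real.exp (M / 2 * s.re) := by
    have h2 : s.re ≤ Real.exp (M / 2 * s.re) / (M / 2) := by
      rw [le_div_iff₀ (by positivity)]
      have := Real.add_one_le_exp (M / 2 * s.re)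
      linarith
    calc D * s.re ≤ |D| * s.re := mul_le_mul_of_nonneg_right (le_abs_self D) hx
      _ ≤ |D| * (Real.exp (M / 2 * s.re) / (M / 2)) := mul_le_mul_of_nonneg_left h2 (abs_nonneg _)
      _ = _ := by ring
  have h3 := hC' s.re
  calc ‖f s‖ ≤ C * Real.exp (D * s.re) := hC s hs
    _ ≤ |C| * Real.exp (D * s.re) := mul_le_mul_of_nonneg_right (le_abs_self C) (Real.exp_nonneg _)
    _ ≤ |C| * Real.exp (ε * Real.exp (M * s.re) + C') :=
        mul_le_mul_of_nonneg_left (Real.exp_le_exp.2 (by linarith)) (abs_nonneg _)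
    _ = |C| * Real.exp C' * Real.exp (ε * Real.exp (M * s.re)) := by rw [Real.exp_add]; ring

lemma XP.vslow {f : ℂ → ℂ} (hf : XP f) : VSlow 1 f := by
  obtain ⟨W, p, h⟩ := hf
  have h2 : f = fun t => ∑ ω ∈ W, (p ω).eval t * exp (ω * t) := funext h
  rw [h2]
  apply VSlow.sum
  intro ω _
  refine VSlow.of_exp zero_le_one ?_ fun T => ?_
  · exact ((p ω).differentiable.mul (by fun_prop)).differentiableOn
  · obtain ⟨K, hK⟩ := term_bd (p ω) ω (μ := ω.re + 1) (by linarith) T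
    exact ⟨K, ω.re + 1, hK⟩

lemma sum_bd {α : Type} (W : Finset α) (f : α → ℂ → ℂ) {μ T : ℝ}
    (h : ∀ x ∈ W, ∃ K : ℝ, ∀ s ∈ Us 1 T, ‖f x s‖ ≤ K * Real.exp (μ * s.re)) :
    ∃ K : ℝ, ∀ s ∈ Us 1 T, ‖∑ x ∈ W, f x s‖ ≤ K * Real.exp (μ * s.re) := by
  choose! K hK using h
  refine ⟨∑ x ∈ W, K x, fun s hs => (norm_sum_le _ _).trans ?_⟩
  rw [Finset.sum_mul]
  exact Finset.sum_le_sum fun x hx => hK x hx s hs

end Pool.Agent.K9h26.GE
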